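import Pool.Agent.TetMid83.Defs
import Pool.Agent.TetRot.GlobalCore
import Pool.Agent.TetRot.PlaceV

/-! # All values equal: the coordinates are algebraic (package M11, helper81) -/

set_option autoImplicit false

open Complex
open Pool.Agent.TetRel Pool.Agent.TetRot

namespace Pool.Agent.TetMid83

/-- the Cayley transform -/
noncomputable def ww (g : ℝ) : ℂ := ((g : ℂ) - I) / ((g : ℂ) + I)

theorem ww_ne (g : ℝ) : ww g ≠ 0 := div_ne_zero (ne_p g) (ne_m g)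

theorem v_ww (p : Place) (g : ℝ) : p.v (ww g) = uu p g := by
  unfold ww uu vp vm
  exact gl_div p _ _ (ne_p g) (ne_m g)

theorem one_sub_ww (g : ℝ) : 1 - ww g = 2 * I / ((g : ℂ) + I) := by
  unfold ww
  have := ne_m g
  field_simp
  ring

theorem one_sub_ww_ne (g : ℝ) : 1 - ww g ≠ 0 := by
  rw [one_sub_ww]
  exact div_ne_zero (mul_ne_zero two_ne_zero I_ne_zero) (ne_m g)

theorem of_ww (g : ℝ) : (g : ℂ) = -I + 2 * I * (1 - ww g)⁻¹ := by
  rw [one_sub_ww]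
  have := ne_m g
  have := I_ne_zero
  field_simp
  ring

theorem alg_of_ww {g : ℝ} (h : IsAlgebraic ℚ (ww g)) : IsAlgebraic ℚ (g : ℂ) := by
  rw [of_ww g]
  have h2 : IsAlgebraic ℚ (2 : ℂ) := gl_alg_nat 2
  exact gl_algI.neg.add ((h2.mul gl_algI).mul (isAlgebraic_one.sub h).inv)

theorem ww_inj {x y : ℝ} (h : ww x = ww y) : x = y := by
  have h1 := of_ww x
  rw [h, ← of_ww y] at h1
  exact_mod_cast h1

theorem alg_ratio {x z : ℝ} (h : ∀ p : Place, uu p x = uu p z) :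
    IsAlgebraic ℚ (ww x / ww z) := by
  refine gl_alg exists_place fun p => ?_
  rw [gl_div p _ _ (ww_ne x) (ww_ne z), v_ww, v_ww, h p, sub_self]

/-- the polynomial relation -/
theorem alg_t {z0 z1 z2 z3 zy t : ℂ} (h0 : IsAlgebraic ℚ z0) (h1 : IsAlgebraic ℚ z1)
    (h2 : IsAlgebraic ℚ z2) (h3 : IsAlgebraic ℚ z3) (hy : IsAlgebraic ℚ zy)
    (n0 : 1 - z0 ≠ 0) (n1 : 1 - z1 ≠ 0) (n2 : 1 - z2 ≠ 0) (n3 : 1 - z3 ≠ 0) (ny : 1 - zy ≠ 0)
    (hF : (1 - t) * (1 - zy * t) * ((1 - z1 * t) * (1 - z2 * t) * (1 - z3 * t) +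
      (1 - z0 * t) * (1 - z2 * t) * (1 - z3 * t) + (1 - z0 * t) * (1 - z1 * t) * (1 - z3 * t) +
      (1 - z0 * t) * (1 - z1 * t) * (1 - z2 * t)) -
      ((1 - t) + 3 * (1 - zy * t)) *
        ((1 - z0 * t) * (1 - z1 * t) * (1 - z2 * t) * (1 - z3 * t)) = 0) :
    IsAlgebraic ℚ t := by
  obtain ⟨k0, e0⟩ : ∃ k : algebraicClosure ℚ ℂ, algebraMap (algebraicClosure ℚ ℂ) ℂ k = z0 :=
    ⟨⟨z0, mem_algebraicClosure_iff.mpr h0⟩, rfl⟩
  obtain ⟨k1, e1⟩ : ∃ k : algebraicClosure ℚ ℂ, algebraMap (algebraicClosure ℚ ℂ) ℂ k = z1 :=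
    ⟨⟨z1, mem_algebraicClosure_iff.mpr h1⟩, rfl⟩
  obtain ⟨k2, e2⟩ : ∃ k : algebraicClosure ℚ ℂ, algebraMap (algebraicClosure ℚ ℂ) ℂ k = z2 :=
    ⟨⟨z2, mem_algebraicClosure_iff.mpr h2⟩, rfl⟩
  obtain ⟨k3, e3⟩ : ∃ k : algebraicClosure ℚ ℂ, algebraMap (algebraicClosure ℚ ℂ) ℂ k = z3 :=
    ⟨⟨z3, mem_algebraicClosure_iff.mpr h3⟩, rfl⟩
  obtain ⟨ky, ey⟩ : ∃ k : algebraicClosure ℚ ℂ, algebraMap (algebraicClosure ℚ ℂ) ℂ k = zy :=
    ⟨⟨zy, mem_algebraicClosure_iff.mpr hy⟩, rfl⟩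
  let P : Polynomial (algebraicClosure ℚ ℂ) :=
    (1 - Polynomial.X) * (1 - Polynomial.C ky * Polynomial.X) *
      ((1 - Polynomial.C k1 * Polynomial.X) * (1 - Polynomial.C k2 * Polynomial.X) *
        (1 - Polynomial.C k3 * Polynomial.X) +
      (1 - Polynomial.C k0 * Polynomial.X) * (1 - Polynomial.C k2 * Polynomial.X) *
        (1 - Polynomial.C k3 * Polynomial.X) +
      (1 - Polynomial.C k0 * Polynomial.X) * (1 - Polynomial.C k1 * Polynomial.X) *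
        (1 - Polynomial.C k3 * Polynomial.X) +
      (1 - Polynomial.C k0 * Polynomial.X) * (1 - Polynomial.C k1 * Polynomial.X) *
        (1 - Polynomial.C k2 * Polynomial.X)) -
      ((1 - Polynomial.X) + 3 * (1 - Polynomial.C ky * Polynomial.X)) *
        ((1 - Polynomial.C k0 * Polynomial.X) * (1 - Polynomial.C k1 * Polynomial.X) *
        (1 - Polynomial.C k2 * Polynomial.X) * (1 - Polynomial.C k3 * Polynomial.X))
  have hP : ∀ s : ℂ, Polynomial.aeval s P =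
      (1 - s) * (1 - zy * s) * ((1 - z1 * s) * (1 - z2 * s) * (1 - z3 * s) +
      (1 - z0 * s) * (1 - z2 * s) * (1 - z3 * s) + (1 - z0 * s) * (1 - z1 * s) * (1 - z3 * s) +
      (1 - z0 * s) * (1 - z1 * s) * (1 - z2 * s)) -
      ((1 - s) + 3 * (1 - zy * s)) *
        ((1 - z0 * s) * (1 - z1 * s) * (1 - z2 * s) * (1 - z3 * s)) := by
    intro s
    simp only [P, map_add, map_sub, map_mul, map_one, map_ofNat, Polynomial.aeval_C,
      Polynomial.aeval_X, e0, e1, e2, e3, ey]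
  have hne : P ≠ 0 := by
    intro hcon
    have h5 := hP 1
    rw [hcon, map_zero] at h5
    have h6 : (-3 : ℂ) * (1 - zy) * ((1 - z0) * (1 - z1) * (1 - z2) * (1 - z3)) = 0 := by
      linear_combination -h5
    have h7 : (-3 : ℂ) * (1 - zy) * ((1 - z0) * (1 - z1) * (1 - z2) * (1 - z3)) ≠ 0 :=
      mul_ne_zero (mul_ne_zero (by norm_num) ny)
        (mul_ne_zero (mul_ne_zero (mul_ne_zero n0 n1) n2) n3)
    exact h7 h6
  have : Algebra.IsAlgebraic ℚ (algebraicClosure ℚ ℂ) := algebraicClosure.isAlgebraic ℚ ℂ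
  exact IsAlgebraic.restrictScalars ℚ (⟨P, hne, (hP t).trans hF⟩ :
    IsAlgebraic (algebraicClosure ℚ ℂ) t)

theorem alg_of_all_eq {a : Fin 4 → ℝ} {y z : ℝ} (h : Nrm a y z) (hA : ∀ p, AllEq p a y z) :
    (∀ i, IsAlgebraic ℚ ((a i : ℝ) : ℂ)) ∧ IsAlgebraic ℚ ((y : ℝ) : ℂ) ∧
      IsAlgebraic ℚ ((z : ℝ) : ℂ) := by
  have hz := ww_ne z
  have ra : ∀ i, IsAlgebraic ℚ (ww (a i) / ww z) := fun i => alg_ratio fun p => (hA p).1 i
  have ry : IsAlgebraic ℚ (ww y / ww z) := alg_ratio fun p => (hA p).2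
  have na : ∀ i, 1 - ww (a i) / ww z ≠ 0 := by
    intro i hi
    have h1 : ww (a i) = ww z := by
      field_simp at hi
      linear_combination -hi
    exact (h.az i).ne (ww_inj h1)
  have ny : 1 - ww y / ww z ≠ 0 := by
    intro hi
    have h1 : ww y = ww z := by
      field_simp at hi
      linear_combination -hi
    exact ((h.ay 0).trans (h.az 0)).ne (ww_inj h1)
  have ea : ∀ i, ww (a i) / ww z * ww z = ww (a i) := fun i => div_mul_cancel₀ _ hz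
  have ey : ww y / ww z * ww z = ww y := div_mul_cancel₀ _ hz
  have hs : (a 0 : ℂ) + a 1 + a 2 + a 3 = (y : ℂ) + 3 * z := by
    exact_mod_cast congrArg (fun r : ℝ => (r : ℂ)) h.sum
  have key : (1 - ww (a 0))⁻¹ + (1 - ww (a 1))⁻¹ + (1 - ww (a 2))⁻¹ + (1 - ww (a 3))⁻¹ =
      (1 - ww y)⁻¹ + 3 * (1 - ww z)⁻¹ := by
    have h2 : (2 * I : ℂ) ≠ 0 := mul_ne_zero two_ne_zero I_ne_zero
    apply mul_left_cancel₀ h2
    rw [of_ww (a 0), of_ww (a 1), of_ww (a 2), of_ww (a 3), of_ww y, of_ww z] at hs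
    linear_combination hs
  have ht : IsAlgebraic ℚ (ww z) := by
    refine alg_t (ra 0) (ra 1) (ra 2) (ra 3) ry (na 0) (na 1) (na 2) (na 3) ny ?_
    rw [ea, ea, ea, ea, ey]
    have d0 := one_sub_ww_ne (a 0)
    have d1 := one_sub_ww_ne (a 1)
    have d2 := one_sub_ww_ne (a 2)
    have d3 := one_sub_ww_ne (a 3)
    have dy := one_sub_ww_ne y
    have dz := one_sub_ww_ne z
    generalize 1 - ww (a 0) = x0 at *
    generalize 1 - ww (a 1) = x1 at *
    generalize 1 - ww (a 2) = x2 at *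
    generalize 1 - ww (a 3) = x3 at *
    generalize 1 - ww y = xy at *
    generalize 1 - ww z = xz at *
    field_simp at key
    linear_combination key
  have hb : ∀ x : ℝ, IsAlgebraic ℚ (ww x / ww z) → IsAlgebraic ℚ (x : ℂ) := by
    intro x hx
    apply alg_of_ww
    have h1 := hx.mul ht
    rwa [div_mul_cancel₀ _ hz] at h1
  exact ⟨fun i => hb _ (ra i), hb _ ry, alg_of_ww ht⟩

end Pool.Agent.TetMid83
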