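import Pool.Agent.TetMid83.Defs
import Pool.Agent.TetRot.AngleZ

/-! # The dihedral angles in the coordinates (package M2, helper13) -/

set_option autoImplicit false

open Complex
open Pool.Agent.TetRel Pool.Agent.TetRot

namespace Pool.Agent.TetMid83

/-- the volume -/
lemma P_lr (r : Fin 4 → ℝ) : TetDim.P (lr r) = 16 * (4 * e2 r * e4 r - e3 r ^ 2) := by
  simp only [TetDim.P, lr, e2, e3, e4, Matrix.cons_val_zero, Matrix.cons_val_one, Matrix.cons_val]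
  ring

/-- from the angle function to the core -/
lemma coreG (l : Fin 6 → ℝ) (hg : TetDim.Good l) (ξ η : ℝ) (hη : 0 < η)
    (e : Fin 6) (A1 A2 Y1 Y2 B C D : ℝ) (hC0 : 0 < C) (hP : TetDim.P l = (8 * C * η) ^ 2)
    (hDp : C * (ξ ^ 2 + η ^ 2) = D) (hBp : C * ξ = - B / 2)
    (hid : TetDim.N l e * ((-B - C * (A1 + A2)) * (C * (Y1 * Y2) - D) -
        (-B - C * (Y1 + Y2)) * (C * (A1 * A2) - D)) +
      16 * l e * ((-B - C * (A1 + A2)) * (-B - C * (Y1 + Y2)) * D +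
        C * (C * (A1 * A2) - D) * (C * (Y1 * Y2) - D) +
        ((-B - C * (A1 + A2)) * (C * (Y1 * Y2) - D) +
        (-B - C * (Y1 + Y2)) * (C * (A1 * A2) - D)) * (-B / 2)) = 0) :
    exp (2 * I * (TetDim.Th l e : ℝ)) = zz ((A1 - ξ) / η) * zz ((A2 - ξ) / η) /
      (zz ((Y1 - ξ) / η) * zz ((Y2 - ξ) / η)) := by
  obtain ⟨hl, hF⟩ := TetDim.good_pos hg.1
  obtain ⟨-, hcos, hsin⟩ := TetDim.Th_facts hg e
  have hsq : √(TetDim.P l) = 8 * C * η := by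
    rw [hP]; exact Real.sqrt_sq (by positivity)
  have hW : 0 < √(TetDim.F l (ec e) * TetDim.F l (ed e)) :=
    Real.sqrt_pos.2 (mul_pos (hF _) (hF _))
  apply core A1 A2 Y1 Y2 ξ η _ hη
  rw [hcos, hsin, hsq]
  set W := √(TetDim.F l (ec e) * TetDim.F l (ed e)) with hWdef
  set NN := TetDim.N l e with hNN
  have key : NN * ((2 * ξ - (A1 + A2)) * (Y1 * Y2 - (ξ ^ 2 + η ^ 2)) -
        (2 * ξ - (Y1 + Y2)) * (A1 * A2 - (ξ ^ 2 + η ^ 2))) +
      16 * l e * C * ((2 * ξ - (A1 + A2)) * (2 * ξ - (Y1 + Y2)) * (ξ ^ 2 + η ^ 2) +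
        (A1 * A2 - (ξ ^ 2 + η ^ 2)) * (Y1 * Y2 - (ξ ^ 2 + η ^ 2)) +
        ((2 * ξ - (A1 + A2)) * (Y1 * Y2 - (ξ ^ 2 + η ^ 2)) +
          (2 * ξ - (Y1 + Y2)) * (A1 * A2 - (ξ ^ 2 + η ^ 2))) * ξ) = 0 := by
    have hC2 : C ^ 2 ≠ 0 := (pow_pos hC0 2).ne'
    apply mul_left_cancel₀ hC2
    rw [mul_zero]
    have f1 : C ^ 2 * (NN * ((2 * ξ - (A1 + A2)) * (Y1 * Y2 - (ξ ^ 2 + η ^ 2)) -
        (2 * ξ - (Y1 + Y2)) * (A1 * A2 - (ξ ^ 2 + η ^ 2))) +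
      16 * l e * C * ((2 * ξ - (A1 + A2)) * (2 * ξ - (Y1 + Y2)) * (ξ ^ 2 + η ^ 2) +
        (A1 * A2 - (ξ ^ 2 + η ^ 2)) * (Y1 * Y2 - (ξ ^ 2 + η ^ 2)) +
        ((2 * ξ - (A1 + A2)) * (Y1 * Y2 - (ξ ^ 2 + η ^ 2)) +
          (2 * ξ - (Y1 + Y2)) * (A1 * A2 - (ξ ^ 2 + η ^ 2))) * ξ)) =
      NN * ((2 * (C * ξ) - C * (A1 + A2)) * (C * (Y1 * Y2) - C * (ξ ^ 2 + η ^ 2)) -
        (2 * (C * ξ) - C * (Y1 + Y2)) * (C * (A1 * A2) - C * (ξ ^ 2 + η ^ 2))) +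
      16 * l e * ((2 * (C * ξ) - C * (A1 + A2)) * (2 * (C * ξ) - C * (Y1 + Y2)) *
        (C * (ξ ^ 2 + η ^ 2)) +
        C * (C * (A1 * A2) - C * (ξ ^ 2 + η ^ 2)) * (C * (Y1 * Y2) - C * (ξ ^ 2 + η ^ 2)) +
        ((2 * (C * ξ) - C * (A1 + A2)) * (C * (Y1 * Y2) - C * (ξ ^ 2 + η ^ 2)) +
          (2 * (C * ξ) - C * (Y1 + Y2)) * (C * (A1 * A2) - C * (ξ ^ 2 + η ^ 2))) * (C * ξ)) := by
      ring
    rw [f1, hDp, hBp]
    have f2 : 2 * (-B / 2) = -B := by ring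
    rw [f2]
    exact hid
  have hW' : W ≠ 0 := hW.ne'
  field_simp
  linear_combination η * key

theorem exp_dih (v : Fin 4 → E3) (hv : AffineIndependent ℝ v) (r : Fin 4 → ℝ)
    (hl : len v = lr r) (ξ η : ℝ) (hη : 0 < η) (hr : Root r ξ η) (e : Fin 6) :
    exp (2 * I * dih v e) = zz (aM r ξ η (ec e)) * zz (aM r ξ η (ed e)) /
      (zz (zM r ξ η) * zz (zM r ξ η)) := by
  obtain ⟨hg, -, -, hd, -⟩ := TetDim.basic v hv
  rw [hd e]
  rw [hl] at hg ⊢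
  have hP := P_lr r
  have hPp : 0 < 4 * e2 r * e4 r - e3 r ^ 2 := by
    have := hg.2
    rw [hP] at this
    linarith
  have hq := hr.qu
  have hlin := hr.lin
  have hne : e2 r ≠ 0 := by
    intro h0
    rw [h0] at hPp
    have := sq_nonneg (e3 r)
    linarith
  have hC0 : 0 < e2 r := by
    have k0 := hg.1 0 0
    have k1 := hg.1 1 0
    have k2 := hg.1 2 0
    have k3 := hg.1 3 0
    simp only [TetDim.D, TetDim.S, lr, Matrix.cons_val_zero, Matrix.cons_val_one,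
      Matrix.cons_val] at k0 k1 k2 k3
    have r0 : 0 < r 0 := by linarith
    have r1 : 0 < r 1 := by linarith
    have r2 : 0 < r 2 := by linarith
    have r3 : 0 < r 3 := by linarith
    unfold e2
    positivity
  have hD : e2 r * (ξ ^ 2 + η ^ 2) = e2 r * sg r ^ 2 - e3 r * sg r + e4 r := by
    apply mul_left_cancel₀ hne
    linear_combination hq / 4 + (-(2 * e2 r * sg r) - 2 * e2 r * ξ + e3 r) * hlin / 4
  have hB : e2 r * ξ = -(e3 r - 2 * e2 r * sg r) / 2 := by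
    linear_combination -hlin / 2
  have hP' : TetDim.P (lr r) = (8 * e2 r * η) ^ 2 := by
    rw [hP]
    linear_combination -16 * hq
  have key := coreG (lr r) hg ξ η hη e (sg r - r (ec e)) (sg r - r (ed e)) (sg r) (sg r)
    (e3 r - 2 * e2 r * sg r) (e2 r) (e2 r * sg r ^ 2 - e3 r * sg r + e4 r) hC0 hP' hD hB (by
      fin_cases e <;>
      · simp only [TetDim.N, TetDim.num, lr, sg, e2, e3, e4, ec, ed, Matrix.cons_val_zero,
          Matrix.cons_val_one, Matrix.cons_val, Fin.zero_eta, Fin.mk_one, Fin.reduceFinMk]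
        ring)
  exact key

end Pool.Agent.TetMid83
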