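import Pool.Agent.TetMid83.UltraM

/-! # The bound at all places (helper82) -/

set_option autoImplicit false

open Complex
open Pool.Agent.TetRel Pool.Agent.TetRot

namespace Pool.Agent.TetMid83

/-- three numbers of value greater than `t` have a sum which is zero or of value greater than `t` -/
private theorem add3 (p : Place) {x y z : ℂ} {t : ℚ} (hx : x ≠ 0) (hy : y ≠ 0) (hz : z ≠ 0)
    (vx : t < p.v x) (vy : t < p.v y) (vz : t < p.v z) (h : x + y + z ≠ 0) :
    t < p.v (x + y + z) := by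
  by_cases hxy : x + y = 0
  · rw [hxy, zero_add]
    exact vz
  · have h1 := p.add x y hx hy hxy
    have h2 := p.add (x + y) z hxy hz h
    have h3 : t < p.v (x + y) := lt_of_lt_of_le (lt_min vx vy) h1
    exact lt_of_lt_of_le (lt_min h3 vz) h2

/-- all coordinates are bounded -/
private theorem coreN (p : Place) {b0 b1 b2 b3 y z : ℝ} {c : ℚ}
    (hsum : b0 + b1 + b2 + b3 = y + 3 * z) (hj : b0 - y = 3 * (z - b0))
    (y0 : y < b0) (y1 : y < b1) (y2 : y < b2) (y3 : y < b3)
    (z0 : b0 < z) (z1 : b1 < z) (z2 : b2 < z) (z3 : b3 < z)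
    (hw : vp p b0 + vp p b1 + vp p b2 + vp p b3 = vp p y + 3 * vp p z)
    (r0 : p.v ((b0 : ℂ) - y) + 3 * p.v ((z : ℂ) - b0) = c + 2 * vp p b0)
    (r1 : p.v ((b1 : ℂ) - y) + 3 * p.v ((z : ℂ) - b1) = c + 2 * vp p b1)
    (r2 : p.v ((b2 : ℂ) - y) + 3 * p.v ((z : ℂ) - b2) = c + 2 * vp p b2)
    (r3 : p.v ((b3 : ℂ) - y) + 3 * p.v ((z : ℂ) - b3) = c + 2 * vp p b3)
    (n0 : vp p b0 ≤ 0) (n1 : vp p b1 ≤ 0) (n2 : vp p b2 ≤ 0) (n3 : vp p b3 ≤ 0)
    (ny : vp p y ≤ 0) (nz : vp p z ≤ 0) :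
    2 * (vp p y + 3 * vp p z) ≤ 4 * p.v ((z : ℂ) - b0) := by
  have hr : (z : ℂ) - b0 ≠ 0 := ofReal_sub_ne z0.ne'
  have e4 : (z : ℂ) - y = ((4 : ℚ) : ℂ) * ((z : ℂ) - b0) := by
    have := congrArg (fun r : ℝ => (r : ℂ)) hj
    push_cast at this ⊢
    linear_combination this
  have e3 : (b0 : ℂ) - y = ((3 : ℚ) : ℂ) * ((z : ℂ) - b0) := by
    have := congrArg (fun r : ℝ => (r : ℂ)) hj
    push_cast at this ⊢
    linear_combination this
  have v4 : p.v ((z : ℂ) - y) = p.v ((z : ℂ) - b0) := by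
    rw [e4, p.rat_mul 4 (by norm_num) _ hr]
  have v3 : p.v ((b0 : ℂ) - y) = p.v ((z : ℂ) - b0) := by
    rw [e3, p.rat_mul 3 (by norm_num) _ hr]
  rcases lt_trichotomy (vp p z) (vp p y) with h | h | h
  · have h1 := sub_p_eq p z y h.ne
    rw [min_eq_left h.le, v4] at h1
    rw [h1]
    linarith
  · have h1 := sub_p p z y (y0.trans z0).ne'
    rw [h, min_self, v4] at h1
    rw [h]
    linarith
  · have h1 := sub_p_eq p z y h.ne'
    rw [min_eq_right h.le, v4] at h1
    by_cases h3 : 3 * vp p z ≤ vp p y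
    · rw [h1]
      linarith
    · exfalso
      push Not at h3
      -- the value at `b0`
      have hA : vp p b0 = vp p y := by
        by_cases hz : vp p z = vp p b0
        · have h2 := sub_p p z b0 z0.ne'
          rw [← hz, min_self, h1] at h2
          linarith
        · have h2 := sub_p_eq p z b0 hz
          rw [h1] at h2
          rcases le_total (vp p z) (vp p b0) with h4 | h4
          · rw [min_eq_left h4] at h2
            linarith
          · rw [min_eq_right h4] at h2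
            exact h2.symm
      have hc : c = 2 * vp p y := by
        rw [v3, h1, hA] at r0
        linarith
      have each : ∀ b : ℝ, y < b → b < z → vp p b ≤ 0 →
          p.v ((b : ℂ) - y) + 3 * p.v ((z : ℂ) - b) = c + 2 * vp p b →
          vp p b ≤ vp p z ∧ (vp p b = vp p z → vp p y < p.v ((z : ℂ) - b)) := by
        intro b hyb hbz hb hrow
        by_cases h5 : vp p b ≤ vp p y
        · exact ⟨by linarith, fun h6 => by linarith⟩
        · push Not at h5
          have hm := sub_p_eq p b y h5.ne'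
          rw [min_eq_right h5.le] at hm
          rcases lt_trichotomy (vp p b) (vp p z) with h6 | h6 | h6
          · have hn := sub_p_eq p z b h6.ne'
            rw [min_eq_right h6.le] at hn
            rw [hm, hn, hc] at hrow
            linarith
          · refine ⟨h6.le, fun _ => ?_⟩
            rw [hm, hc, h6] at hrow
            linarith
          · have hn := sub_p_eq p z b h6.ne
            rw [min_eq_left h6.le] at hn
            rw [hm, hn, hc] at hrow
            linarith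
      obtain ⟨a1, c1⟩ := each b1 y1 z1 n1 r1
      obtain ⟨a2, c2⟩ := each b2 y2 z2 n2 r2
      obtain ⟨a3, c3⟩ := each b3 y3 z3 n3 r3
      have d1 := c1 (by linarith)
      have d2 := c2 (by linarith)
      have d3 := c3 (by linarith)
      have es : ((z : ℂ) - b1) + ((z : ℂ) - b2) + ((z : ℂ) - b3) = (b0 : ℂ) - y := by
        have := congrArg (fun r : ℝ => (r : ℂ)) hsum
        push_cast at this
        linear_combination -this
      have hne : ((z : ℂ) - b1) + ((z : ℂ) - b2) + ((z : ℂ) - b3) ≠ 0 := by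
        rw [es]
        exact ofReal_sub_ne y0.ne'
      have h7 := add3 p (ofReal_sub_ne z1.ne') (ofReal_sub_ne z2.ne') (ofReal_sub_ne z3.ne')
        d1 d2 d3 hne
      rw [es, v3, h1] at h7
      exact lt_irrefl _ h7

private theorem same_p (p : Place) {g z : ℝ} (hz : 0 < vp p z) (hz' : vm p z = 0)
    (h : uu p g = uu p z) : vp p g = vp p z ∧ vm p g = 0 := by
  unfold uu at h
  rcases trich p g with ⟨h1, h2⟩ | ⟨h1, h2⟩ | ⟨h1, h2⟩
  · exfalso; linarith
  · exact ⟨by linarith, h2⟩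
  · exfalso; linarith

private theorem same_m (p : Place) {g z : ℝ} (hz : 0 < vm p z) (hz' : vp p z = 0)
    (h : uu p g = uu p z) : vm p g = vm p z ∧ vp p g = 0 := by
  unfold uu at h
  rcases trich p g with ⟨h1, h2⟩ | ⟨h1, h2⟩ | ⟨h1, h2⟩
  · exfalso; linarith
  · exfalso; linarith
  · exact ⟨by linarith, h1⟩

private theorem same_n (p : Place) {g z : ℝ} (hz : vp p z = vm p z)
    (h : uu p g = uu p z) : vp p g = vm p g ∧ vp p g ≤ 0 := by
  unfold uu at h
  rcases trich p g with ⟨h1, h2⟩ | ⟨h1, h2⟩ | ⟨h1, h2⟩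
  · exact ⟨h1, h2⟩
  · exfalso; linarith
  · exfalso; linarith

private theorem eq_aj {a : Fin 4 → ℝ} {y z : ℝ} {j j' : Fin 4} (hj : a j - y = 3 * (z - a j))
    (hj' : a j' - y = 3 * (z - a j')) : a j = a j' := by linarith

theorem bound (p : Place) {a : Fin 4 → ℝ} {y z : ℝ} (h : Nrm a y z) (hL : Loc p a y z)
    (j : Fin 4) (hj : a j - y = 3 * (z - a j)) : vG p a ≤ 4 * p.v ((z : ℂ) - a j) := by
  rcases hL with hA | ⟨j', hE⟩ | ⟨j', hE⟩
  · obtain ⟨ha, hy⟩ := hA
    rcases trich p z with ⟨h1, h2⟩ | ⟨h1, h2⟩ | ⟨h1, h2⟩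
    · have ga := fun i => same_n p h1 (ha i)
      have gy := same_n p h1 hy
      have hw := wt_p p h
      have hrow : ∀ i, p.v ((a i : ℂ) - y) + 3 * p.v ((z : ℂ) - a i) =
          p.v (C2 a y z : ℂ) + 2 * vp p (a i) := by
        intro i
        rw [row p h i, ← (ga i).1]
        ring
      have hG : vG p a = 2 * (vp p y + 3 * vp p z) := by
        unfold vG
        rw [← (ga 0).1, ← (ga 1).1, ← (ga 2).1, ← (ga 3).1, ← hw]
        ring
      rw [hG]
      have hs := h.sum
      fin_cases j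
      · exact coreN p (b0 := a 0) (b1 := a 1) (b2 := a 2) (b3 := a 3) hs hj (h.ay 0) (h.ay 1)
          (h.ay 2) (h.ay 3) (h.az 0) (h.az 1) (h.az 2) (h.az 3) hw (hrow 0) (hrow 1) (hrow 2)
          (hrow 3) (ga 0).2 (ga 1).2 (ga 2).2 (ga 3).2 gy.2 h2
      · exact coreN p (b0 := a 1) (b1 := a 0) (b2 := a 2) (b3 := a 3) (by linarith) hj (h.ay 1)
          (h.ay 0) (h.ay 2) (h.ay 3) (h.az 1) (h.az 0) (h.az 2) (h.az 3) (by linarith) (hrow 1)
          (hrow 0) (hrow 2) (hrow 3) (ga 1).2 (ga 0).2 (ga 2).2 (ga 3).2 gy.2 h2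
      · exact coreN p (b0 := a 2) (b1 := a 1) (b2 := a 0) (b3 := a 3) (by linarith) hj (h.ay 2)
          (h.ay 1) (h.ay 0) (h.ay 3) (h.az 2) (h.az 1) (h.az 0) (h.az 3) (by linarith) (hrow 2)
          (hrow 1) (hrow 0) (hrow 3) (ga 2).2 (ga 1).2 (ga 0).2 (ga 3).2 gy.2 h2
      · exact coreN p (b0 := a 3) (b1 := a 1) (b2 := a 2) (b3 := a 0) (by linarith) hj (h.ay 3)
          (h.ay 1) (h.ay 2) (h.ay 0) (h.az 3) (h.az 1) (h.az 2) (h.az 0) (by linarith) (hrow 3)
          (hrow 1) (hrow 2) (hrow 0) (ga 3).2 (ga 1).2 (ga 2).2 (ga 0).2 gy.2 h2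
    · have ga := fun i => same_p p h1 h2 (ha i)
      have h3 := sub_p p z (a j) (h.az j).ne'
      rw [(ga j).1, min_self] at h3
      unfold vG
      rw [(ga 0).1, (ga 1).1, (ga 2).1, (ga 3).1, (ga 0).2, (ga 1).2, (ga 2).2, (ga 3).2]
      linarith
    · have ga := fun i => same_m p h2 h1 (ha i)
      have h3 := sub_m p z (a j) (h.az j).ne'
      rw [(ga j).1, min_self] at h3
      unfold vG
      rw [(ga 0).1, (ga 1).1, (ga 2).1, (ga 3).1, (ga 0).2, (ga 1).2, (ga 2).2, (ga 3).2]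
      linarith
  · have e := eq_aj hj hE.eq
    have hw := wt_p p h
    have hr := hE.rj
    have hy := hE.yp
    rw [e, hr]
    unfold vG
    rw [hE.am 0, hE.am 1, hE.am 2, hE.am 3]
    linarith
  · have e := eq_aj hj hE.eq
    have hw := wt_m p h
    have hr := hE.rj
    have hy := hE.yp
    have a0 := hE.am 0
    have a1 := hE.am 1
    have a2 := hE.am 2
    have a3 := hE.am 3
    rw [v_conj_real_sub, vp_conj] at hr
    rw [vp_conj, vp_conj] at hy
    rw [vm_conj] at a0 a1 a2 a3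
    rw [e, hr]
    unfold vG
    rw [a0, a1, a2, a3]
    linarith

end Pool.Agent.TetMid83
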