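import Pool.Agent.TetRot.Resid
import Pool.Agent.TetRot.RelZ
import Pool.Agent.TetRot.PlaceV

/-! # Tetrahedra whose six edges are tangent to one sphere: definitions (helper83)

`r c` is the length of the tangents at the vertex `c`: the edge `ab` has length `r a + r b`. -/

set_option autoImplicit false

open Complex
open Pool.Agent.TetRel Pool.Agent.TetRot

namespace Pool.Agent.TetMid83

/-- the lengths of the edges `01, 02, 03, 12, 13, 23` -/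
def lr (r : Fin 4 → ℝ) : Fin 6 → ℝ :=
  ![r 0 + r 1, r 0 + r 2, r 0 + r 3, r 1 + r 2, r 1 + r 3, r 2 + r 3]

def sg (r : Fin 4 → ℝ) : ℝ := r 0 + r 1 + r 2 + r 3

def e2 (r : Fin 4 → ℝ) : ℝ :=
  r 0 * r 1 + r 0 * r 2 + r 0 * r 3 + r 1 * r 2 + r 1 * r 3 + r 2 * r 3

def e3 (r : Fin 4 → ℝ) : ℝ :=
  r 0 * r 1 * r 2 + r 0 * r 1 * r 3 + r 0 * r 2 * r 3 + r 1 * r 2 * r 3

def e4 (r : Fin 4 → ℝ) : ℝ := r 0 * r 1 * r 2 * r 3

/-- `ξ + i η` is the root of `e2 (X - sg) ^ 2 + e3 (X - sg) + e4` -/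
structure Root (r : Fin 4 → ℝ) (ξ η : ℝ) : Prop where
  lin : 2 * e2 r * (sg r - ξ) = e3 r
  qu : 4 * e2 r ^ 2 * η ^ 2 = 4 * e2 r * e4 r - e3 r ^ 2

/-- normalised half perimeter of the face opposite to the vertex `c` -/
noncomputable def aM (r : Fin 4 → ℝ) (ξ η : ℝ) (c : Fin 4) : ℝ := (sg r - r c - ξ) / η

/-- normalised zero -/
noncomputable def yM (ξ η : ℝ) : ℝ := (0 - ξ) / η

/-- normalised half perimeter of the quadrilaterals -/
noncomputable def zM (r : Fin 4 → ℝ) (ξ η : ℝ) : ℝ := (sg r - ξ) / η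

/-- The normalised coordinates. -/
structure Nrm (a : Fin 4 → ℝ) (y z : ℝ) : Prop where
  sum : a 0 + a 1 + a 2 + a 3 = y + 3 * z
  eqn : ((a 0 : ℂ) - I) * ((a 1 : ℂ) - I) * ((a 2 : ℂ) - I) * ((a 3 : ℂ) - I) =
    ((y : ℂ) - I) * ((z : ℂ) - I) ^ 3
  ay : ∀ i, y < a i
  az : ∀ i, a i < z

/-- The linear relation between the coordinates given by a place. -/
def Rel (p : Place) (a : Fin 4 → ℝ) (y z : ℝ) : Prop :=
  (uu p (a 0) : ℝ) * a 0 + (uu p (a 1) : ℝ) * a 1 + (uu p (a 2) : ℝ) * a 2 +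
    (uu p (a 3) : ℝ) * a 3 = (uu p y : ℝ) * y + 3 * (uu p z : ℝ) * z

/-- `∏ (X - a i) - (X - y) (X - z) ^ 3 = C2 (X ^ 2 + 1)` -/
def C2 (a : Fin 4 → ℝ) (y z : ℝ) : ℝ :=
  a 0 * a 1 + a 0 * a 2 + a 0 * a 3 + a 1 * a 2 + a 1 * a 3 + a 2 * a 3 - 3 * y * z - 3 * z ^ 2

/-- all values `uu` are equal -/
def AllEq (p : Place) (a : Fin 4 → ℝ) (y z : ℝ) : Prop :=
  (∀ i, uu p (a i) = uu p z) ∧ uu p y = uu p z

/-- the exceptional places -/
structure TyE (p : Place) (a : Fin 4 → ℝ) (y z : ℝ) (j : Fin 4) : Prop where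
  eq : a j - y = 3 * (z - a j)
  pos : 0 < vp p z
  yp : vp p y = vp p z
  zm : vm p z = 0
  ym : vm p y = 0
  am : ∀ i, vm p (a i) = 0
  rj : p.v ((z : ℂ) - a j) = vp p z
  aj : vp p z < vp p (a j)

/-- the classification of the places -/
def Loc (p : Place) (a : Fin 4 → ℝ) (y z : ℝ) : Prop :=
  AllEq p a y z ∨ (∃ j, TyE p a y z j) ∨ ∃ j, TyE p.conj a y z j

/-- the value of the product of all `a i ^ 2 + 1` -/
noncomputable def vG (p : Place) (a : Fin 4 → ℝ) : ℚ :=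
  vp p (a 0) + vm p (a 0) + (vp p (a 1) + vm p (a 1)) + (vp p (a 2) + vm p (a 2)) +
    (vp p (a 3) + vm p (a 3))

end Pool.Agent.TetMid83
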