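import Pool.Agent.TetMid83.UltraM

/-! # The leading coefficient at an exceptional place (helper75) -/

set_option autoImplicit false

open Complex
open Pool.Agent.TetRel Pool.Agent.TetRot

namespace Pool.Agent.TetMid83

open Pool.Agent.TetRot.Resid

/-- the ring of the place -/
private def Bd (p : Place) (x : ℂ) : Prop := x = 0 ∨ 0 ≤ p.v x

private lemma Bd.add {p : Place} {x y : ℂ} (hx : Bd p x) (hy : Bd p y) : Bd p (x + y) := by
  rcases hx with rfl | hx
  · rwa [zero_add]
  · rcases hy with rfl | hy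
    · rw [add_zero]; exact Or.inr hx
    · by_cases h0 : x + y = 0
      · exact Or.inl h0
      · by_cases x0 : x = 0
        · rw [x0, zero_add]; exact Or.inr hy
        · by_cases y0 : y = 0
          · rw [y0, add_zero]; exact Or.inr hx
          · exact Or.inr (le_trans (le_min hx hy) (p.add x y x0 y0 h0))

private lemma Bd.mul {p : Place} {x y : ℂ} (hx : Bd p x) (hy : Bd p y) : Bd p (x * y) := by
  by_cases x0 : x = 0
  · exact Or.inl (by rw [x0, zero_mul])
  · by_cases y0 : y = 0
    · exact Or.inl (by rw [y0, mul_zero])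
    · have h1 := hx.resolve_left x0
      have h2 := hy.resolve_left y0
      exact Or.inr (by rw [p.mul x y x0 y0]; exact add_nonneg h1 h2)

private lemma Bd.rat (p : Place) (q : ℚ) : Bd p (q : ℂ) := by
  by_cases hq : q = 0
  · exact Or.inl (by rw [hq]; simp)
  · exact Or.inr (by rw [p.rat q hq])

private lemma Bd.int (p : Place) (n : ℤ) : Bd p (n : ℂ) := by
  have := Bd.rat p n
  simpa using this

private lemma Bd.I (p : Place) : Bd p I := Or.inr (by rw [p.vI])

private lemma bd_of_small {p : Place} {x : ℂ} (hx : Small p x) : Bd p x := by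
  rcases hx with h | h
  · exact Or.inl h
  · exact Or.inr h.le

private lemma small_mul {p : Place} {x y : ℂ} (hx : Small p x) (hy : Bd p y) :
    Small p (x * y) := by
  by_cases x0 : x = 0
  · exact Or.inl (by rw [x0, zero_mul])
  · by_cases y0 : y = 0
    · exact Or.inl (by rw [y0, mul_zero])
    · have h1 := hx.resolve_left x0
      have h2 := hy.resolve_left y0
      exact Or.inr (by rw [p.mul x y x0 y0]; exact add_pos_of_pos_of_nonneg h1 h2)

/-- `W = -48 + small` -/
private lemma small_W {p : Place} {q d : ℂ} (hq : Small p q) (hd : Small p d) :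
    Small p ((4 * q - 3) * (2 * I + d * (4 * q - 3)) * (2 * I + d) ^ 3 + 48) := by
  have bq := bd_of_small hq
  have bd := bd_of_small hd
  have bE : Bd p (4 * q - 3) := by
    have h := ((Bd.int p 4).mul bq).add (Bd.int p (-3))
    push_cast at h
    rwa [← sub_eq_add_neg] at h
  have bT : Bd p (-12 + 6 * I * d + d * d) := by
    have h := ((Bd.int p (-12)).add (((Bd.int p 6).mul (Bd.I p)).mul bd)).add (bd.mul bd)
    push_cast at h
    exact h
  have bB : Bd p ((4 * q - 3) * (2 * I * (-12 + 6 * I * d + d * d) +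
      (4 * q - 3) * (-8 * I + d * (-12 + 6 * I * d + d * d)))) := by
    have h := bE.mul ((((Bd.int p 2).mul (Bd.I p)).mul bT).add
      (bE.mul (((Bd.int p (-8)).mul (Bd.I p)).add (bd.mul bT))))
    push_cast at h
    exact h
  have h64 : Small p (q * 64) := by
    have h := small_mul hq (Bd.int p 64)
    push_cast at h
    exact h
  have key := h64.add (small_mul hd bB)
  have e : (4 * q - 3) * (2 * I + d * (4 * q - 3)) * (2 * I + d) ^ 3 + 48 =
      q * 64 + d * ((4 * q - 3) * (2 * I * (-12 + 6 * I * d + d * d) +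
      (4 * q - 3) * (-8 * I + d * (-12 + 6 * I * d + d * d)))) := by
    have hI : I ^ 2 = -1 := I_sq
    have hI3 : I ^ 3 = -I := by rw [pow_succ, I_sq]; ring
    have hI4 : I ^ 4 = 1 := by
      rw [show (4 : ℕ) = 2 * 2 from rfl, pow_mul, I_sq]; norm_num
    ring_nf
    simp only [hI, hI3, hI4]
    ring
  rw [e]
  exact key

private lemma small_N {p : Place} {q : ℂ} (hq : Small p q) :
    Small p (48 * (1 - q) ^ 4 - 48) := by
  have bq := bd_of_small hq
  have bA : Bd p (-192 + 288 * q + (-192) * (q * q) + 48 * (q * (q * q))) := by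
    have h := (((Bd.int p (-192)).add ((Bd.int p 288).mul bq)).add
      ((Bd.int p (-192)).mul (bq.mul bq))).add ((Bd.int p 48).mul (bq.mul (bq.mul bq)))
    push_cast at h
    exact h
  have h := small_mul hq bA
  have e : 48 * (1 - q) ^ 4 - 48 =
      q * (-192 + 288 * q + (-192) * (q * q) + 48 * (q * (q * q))) := by ring
  rw [e]
  exact h

theorem lead (p : Place) {a : Fin 4 → ℝ} {y z : ℝ} (h : Nrm a y z) (j : Fin 4)
    (hE : TyE p a y z j) :
    (z - a j) ^ 4 / ((y ^ 2 + 1) * (z ^ 2 + 1) ^ 3) + 1 / 48 = 0 ∨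
      0 < p.v (((z - a j) ^ 4 / ((y ^ 2 + 1) * (z ^ 2 + 1) ^ 3) + 1 / 48 : ℝ) : ℂ) := by
  set d : ℂ := (z : ℂ) - I with hd
  have d0 : d ≠ 0 := ne_p z
  have s0 : (a j : ℂ) - I ≠ 0 := ne_p (a j)
  set q : ℂ := ((a j : ℂ) - I) / d with hqd
  have sd : Small p d := Or.inr hE.pos
  have sq : Small p q := by
    refine Or.inr ?_
    rw [hqd, p.div _ _ s0 d0]
    have h1 := hE.aj
    unfold vp at h1
    rw [← hd] at h1
    linarith
  have hs : (a j : ℂ) - I = d * q := by
    rw [hqd]
    field_simp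
  have eqC : (a j : ℂ) - y = 3 * ((z : ℂ) - a j) := by
    have h1 := congrArg (fun r : ℝ => (r : ℂ)) hE.eq
    push_cast at h1
    exact h1
  set W : ℂ := (4 * q - 3) * (2 * I + d * (4 * q - 3)) * (2 * I + d) ^ 3 with hW
  have sW : Small p (W + 48) := small_W sq sd
  have sN := small_N sq
  have hW0 : W ≠ 0 ∧ p.v W = 0 := by
    rcases sW with h1 | h1
    · have h2 : W = ((-48 : ℚ) : ℂ) := by
        push_cast
        linear_combination h1
      rw [h2]
      exact ⟨by norm_num, p.rat _ (by norm_num)⟩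
    · by_cases h0 : W + 48 = 0
      · have h2 : W = ((-48 : ℚ) : ℂ) := by
          push_cast
          linear_combination h0
        rw [h2]
        exact ⟨by norm_num, p.rat _ (by norm_num)⟩
      · have h3 : p.v ((-48 : ℚ) : ℂ) = 0 := p.rat _ (by norm_num)
        have h4 := p.add_lt ((-48 : ℚ) : ℂ) (W + 48) (by norm_num) h0 (by rw [h3]; exact h1)
        have h5 : ((-48 : ℚ) : ℂ) + (W + 48) = W := by
          push_cast
          ring
        rw [h5, h3] at h4
        exact h4
  have hz : (z : ℂ) ^ 2 + 1 = d * (2 * I + d) := by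
    rw [hd]
    linear_combination I_sq
  have hyI : (y : ℂ) - I = d * (4 * q - 3) := by
    have h1 : (y : ℂ) - I = 4 * ((a j : ℂ) - I) - 3 * ((z : ℂ) - I) := by
      linear_combination -eqC
    rw [h1, hs, ← hd]
    ring
  have hy : (y : ℂ) ^ 2 + 1 = d * (4 * q - 3) * (2 * I + d * (4 * q - 3)) := by
    rw [← hyI]
    linear_combination I_sq
  have hr : (z : ℂ) - a j = d * (1 - q) := by
    have h1 : (z : ℂ) - a j = ((z : ℂ) - I) - ((a j : ℂ) - I) := by ring
    rw [h1, hs, ← hd]
    ring
  have hD : ((y : ℂ) ^ 2 + 1) * ((z : ℂ) ^ 2 + 1) ^ 3 = d ^ 4 * W := by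
    rw [hy, hz, hW]
    ring
  have e1 : (((z - a j) ^ 4 / ((y ^ 2 + 1) * (z ^ 2 + 1) ^ 3) + 1 / 48 : ℝ) : ℂ) =
      ((48 * (1 - q) ^ 4 - 48) + (W + 48)) / (48 * W) := by
    push_cast
    rw [hD, hr]
    have hd4 : d ^ 4 ≠ 0 := pow_ne_zero 4 d0
    have hW1 := hW0.1
    field_simp
    ring
  have sT := sN.add sW
  rcases sT with h1 | h1
  · left
    have h2 : (((z - a j) ^ 4 / ((y ^ 2 + 1) * (z ^ 2 + 1) ^ 3) + 1 / 48 : ℝ) : ℂ) = 0 := by
      rw [e1, h1, zero_div]
    exact_mod_cast h2
  · by_cases h0 : (48 * (1 - q) ^ 4 - 48) + (W + 48) = 0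
    · left
      have h2 : (((z - a j) ^ 4 / ((y ^ 2 + 1) * (z ^ 2 + 1) ^ 3) + 1 / 48 : ℝ) : ℂ) = 0 := by
        rw [e1, h0, zero_div]
      exact_mod_cast h2
    · right
      rw [e1, p.div _ _ h0 (mul_ne_zero (by norm_num) hW0.1)]
      have h3 : p.v (48 * W) = 0 := by
        have h4 := p.rat_mul 48 (by norm_num) W hW0.1
        push_cast at h4
        rw [h4]
        exact hW0.2
      rw [h3, sub_zero]
      exact h1

end Pool.Agent.TetMid83
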