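import Pool.Agent.TetMid83.GlobMCore
import Pool.Agent.TetMid83.BoundM
import Pool.Agent.TetMid83.LeadM

/-! # The global theorem for tetrahedra with a midsphere (helper10) -/

set_option autoImplicit false

open Complex
open Pool.Agent.TetRel Pool.Agent.TetRot

namespace Pool.Agent.TetMid83

theorem all_eq {a : Fin 4 → ℝ} {y z : ℝ} (h : Nrm a y z) (hL : ∀ p, Loc p a y z) :
    ∀ p, AllEq p a y z :=
  all_eq_of h hL (fun p j hj => bound p h (hL p) j hj) (fun p j hE => lead p h j hE)

end Pool.Agent.TetMid83
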