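import Pool.Agent.TetMid83.Defs

/-! # The combinatorial core of the local classification (helper83) -/

set_option autoImplicit false

namespace Pool.Agent.TetMid83

private lemma one (a y z : ℝ) (A n m Y Z D : ℚ) (hZ : D < Z) (hY : D < Y)
    (hn : n = Z) (hm : m = Y) (hA : A = Y + 3 * Z - 3 * D)
    (hR : ((A : ℝ) - D) * a = ((Y : ℝ) - D) * y + 3 * ((Z : ℝ) - D) * z)
    (hprop : ∀ r s : ℚ, r ≠ 0 → (r : ℝ) * (a - y) = (s : ℝ) * (z - a) → m = n) :
    a - y = 3 * (z - a) ∧ Y = Z ∧ n = Z ∧ Z < A := by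
  have hA' : (A : ℝ) = Y + 3 * Z - 3 * D := by rw [hA]; push_cast; ring
  have h1 : ((Y - D : ℚ) : ℝ) * (a - y) = ((3 * (Z - D) : ℚ) : ℝ) * (z - a) := by
    push_cast
    rw [hA'] at hR
    linear_combination hR
  have h2 : Y = Z := by
    have := hprop (Y - D) (3 * (Z - D)) (sub_pos.2 hY).ne' h1
    rw [← hm, ← hn]; exact this
  refine ⟨?_, h2, hn, ?_⟩
  · rw [h2] at h1
    push_cast at h1
    have h3 : (Z : ℝ) - D ≠ 0 := by
      have : (D : ℝ) < Z := by exact_mod_cast hZ
      linarith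
    apply mul_left_cancel₀ h3
    linear_combination h1
  · rw [hA, h2]; linarith

theorem locPP (a : Fin 4 → ℝ) (y z : ℝ) (ay : ∀ i, y < a i) (az : ∀ i, a i < z)
    (A n m : Fin 4 → ℚ) (Y Z c : ℚ)
    (hw : A 0 + A 1 + A 2 + A 3 = Y + 3 * Z)
    (hrow : ∀ i, m i + 3 * n i = c + A i)
    (hcz : n 0 + n 1 + n 2 + n 3 = c + Z)
    (hcy : m 0 + m 1 + m 2 + m 3 = c + Y)
    (hsum : a 0 + a 1 + a 2 + a 3 = y + 3 * z)
    (hR : (A 0 : ℝ) * a 0 + (A 1 : ℝ) * a 1 + (A 2 : ℝ) * a 2 + (A 3 : ℝ) * a 3 =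
      (Y : ℝ) * y + 3 * (Z : ℝ) * z)
    (hn : ∀ i, min (A i) Z ≤ n i) (hn' : ∀ i, A i ≠ Z → n i = min (A i) Z)
    (hm : ∀ i, min (A i) Y ≤ m i) (hm' : ∀ i, A i ≠ Y → m i = min (A i) Y)
    (hprop : ∀ i, ∀ r s : ℚ, r ≠ 0 → (r : ℝ) * (a i - y) = (s : ℝ) * (z - a i) → m i = n i) :
    ((∀ i, A i = Z) ∧ Y = Z) ∨
      ∃ j, a j - y = 3 * (z - a j) ∧ Y = Z ∧ n j = Z ∧ Z < A j := by
  classical
  obtain ⟨i0, -, hi0⟩ := Finset.exists_min_image (Finset.univ : Finset (Fin 4))
    (fun i => min (n i) (m i)) Finset.univ_nonempty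
  obtain ⟨D, hDn, hDm, hD0⟩ : ∃ D : ℚ, (∀ i, D ≤ n i) ∧ (∀ i, D ≤ m i) ∧
      (n i0 = D ∨ m i0 = D) := by
    refine ⟨min (n i0) (m i0), fun i => (hi0 i (Finset.mem_univ i)).trans (min_le_left _ _),
      fun i => (hi0 i (Finset.mem_univ i)).trans (min_le_right _ _), ?_⟩
    rcases min_choice (n i0) (m i0) with h | h
    · left; rw [h]
    · right; rw [h]
  by_cases hall : (∀ i, A i = Z) ∧ Y = Z
  · exact Or.inl hall
  -- everything is at least `D`
  have hDZ : D ≤ Z := by
    by_contra hlt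
    push Not at hlt
    have h1 : ∀ i, A i = Z := by
      intro i
      by_contra hne
      have := hn' i hne
      have := hDn i
      have := min_le_right (A i) Z
      linarith
    apply hall
    refine ⟨h1, ?_⟩
    by_contra hne
    have h2 := hm' 0 (by rw [h1 0]; exact fun h => hne h.symm)
    have := hDm 0
    have := min_le_left (A 0) Y
    rw [h1 0] at *
    linarith
  have hDY : D ≤ Y := by
    by_contra hlt
    push Not at hlt
    have h1 : ∀ i, A i = Y := by
      intro i
      by_contra hne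
      have := hm' i hne
      have := hDm i
      have := min_le_right (A i) Y
      linarith
    have h2 : Y = Z := by
      by_contra hne
      have h2 := hn' 0 (by rw [h1 0]; exact hne)
      have := hDn 0
      have := min_le_left (A 0) Z
      rw [h1 0] at *
      linarith
    exact hall ⟨fun i => (h1 i).trans h2, h2⟩
  have hDA : ∀ i, D ≤ A i := by
    intro i
    by_contra hlt
    push Not at hlt
    have h1 : A i = Z := by
      by_contra hne
      have := hn' i hne
      have := hDn i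
      have := min_le_left (A i) Z
      linarith
    rw [h1] at hlt
    linarith
  have hDAr : ∀ i, (D : ℝ) ≤ A i := fun i => by exact_mod_cast hDA i
  have hwr : (A 0 : ℝ) + A 1 + A 2 + A 3 = Y + 3 * Z := by exact_mod_cast hw
  right
  have hDZ' : D < Z := by
    refine lt_of_le_of_ne hDZ fun hZ => ?_
    have hZr : (D : ℝ) = Z := by exact_mod_cast hZ
    have h1 : ((A 0 : ℝ) - D) * (a 0 - y) + ((A 1 : ℝ) - D) * (a 1 - y) +
        ((A 2 : ℝ) - D) * (a 2 - y) + ((A 3 : ℝ) - D) * (a 3 - y) = 0 := by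
      rw [← hZr] at hR hwr
      linear_combination hR - (D : ℝ) * hsum - y * hwr
    have h2 : ∀ i, 0 ≤ ((A i : ℝ) - D) * (a i - y) := fun i =>
      mul_nonneg (sub_nonneg.2 (hDAr i)) (sub_pos.2 (ay i)).le
    have h3 : ∀ i, ((A i : ℝ) - D) * (a i - y) = 0 := by
      have e0 := h2 0
      have e1 := h2 1
      have e2 := h2 2
      have e3 := h2 3
      intro i
      fin_cases i <;> simp only [Fin.zero_eta, Fin.mk_one, Fin.reduceFinMk] <;> linarith
    have h4 : ∀ i, A i = D := by
      intro i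
      rcases mul_eq_zero.1 (h3 i) with h | h
      · have : (A i : ℝ) = D := by linarith
        exact_mod_cast this
      · exact absurd h (sub_pos.2 (ay i)).ne'
    apply hall
    have e0 := h4 0
    have e1 := h4 1
    have e2 := h4 2
    have e3 := h4 3
    refine ⟨fun i => (h4 i).trans hZ, by linarith⟩
  have hDY' : D < Y := by
    refine lt_of_le_of_ne hDY fun hY => ?_
    have hYr : (D : ℝ) = Y := by exact_mod_cast hY
    have h1 : ((A 0 : ℝ) - D) * (z - a 0) + ((A 1 : ℝ) - D) * (z - a 1) +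
        ((A 2 : ℝ) - D) * (z - a 2) + ((A 3 : ℝ) - D) * (z - a 3) = 0 := by
      rw [← hYr] at hR hwr
      linear_combination -hR + (D : ℝ) * hsum + z * hwr
    have h2 : ∀ i, 0 ≤ ((A i : ℝ) - D) * (z - a i) := fun i =>
      mul_nonneg (sub_nonneg.2 (hDAr i)) (sub_pos.2 (az i)).le
    have h3 : ∀ i, ((A i : ℝ) - D) * (z - a i) = 0 := by
      have e0 := h2 0
      have e1 := h2 1
      have e2 := h2 2
      have e3 := h2 3
      intro i
      fin_cases i <;> simp only [Fin.zero_eta, Fin.mk_one, Fin.reduceFinMk] <;> linarith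
    have h4 : ∀ i, A i = D := by
      intro i
      rcases mul_eq_zero.1 (h3 i) with h | h
      · have : (A i : ℝ) = D := by linarith
        exact_mod_cast this
      · exact absurd h (sub_pos.2 (az i)).ne'
    have e0 := h4 0
    have e1 := h4 1
    have e2 := h4 2
    have e3 := h4 3
    linarith
  -- the constant
  have hA0 : A i0 = D := by
    rcases hD0 with h | h
    · have h1 := hn i0
      rw [h] at h1
      rcases min_le_iff.1 h1 with h2 | h2
      · exact le_antisymm h2 (hDA i0)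
      · exact absurd h2 (not_le.2 hDZ')
    · have h1 := hm i0
      rw [h] at h1
      rcases min_le_iff.1 h1 with h2 | h2
      · exact le_antisymm h2 (hDA i0)
      · exact absurd h2 (not_le.2 hDY')
  have hsmall : ∀ i, A i = D → n i = D ∧ m i = D := by
    intro i hi
    refine ⟨?_, ?_⟩
    · rw [hn' i (by rw [hi]; exact hDZ'.ne), hi, min_eq_left hDZ'.le]
    · rw [hm' i (by rw [hi]; exact hDY'.ne), hi, min_eq_left hDY'.le]
  have hc : c = 3 * D := by
    have h1 := hrow i0
    obtain ⟨h2, h3⟩ := hsmall i0 hA0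
    rw [h2, h3, hA0] at h1
    linarith
  have key : ∀ i, (A i = D ∧ n i = D ∧ m i = D) ∨ (D < A i ∧ Z ≤ n i ∧ Y ≤ m i) := by
    intro i
    rcases (hDA i).eq_or_lt with h | h
    · left
      exact ⟨h.symm, hsmall i h.symm⟩
    · right
      have hr := hrow i
      rw [hc] at hr
      have h1 : Z ≤ A i := by
        by_contra hlt
        push Not at hlt
        have h2 := hn' i hlt.ne
        rw [min_eq_left hlt.le] at h2
        have := hDm i
        linarith
      have h2 : Z ≤ n i := by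
        have := hn i
        rwa [min_eq_right h1] at this
      have h3 : Y ≤ A i := by
        by_contra hlt
        push Not at hlt
        have h4 := hm' i hlt.ne
        rw [min_eq_left hlt.le] at h4
        linarith
      have h4 : Y ≤ m i := by
        have := hm i
        rwa [min_eq_right h3] at this
      exact ⟨h, h2, h4⟩
  have hR' : ((A 0 : ℝ) - D) * a 0 + ((A 1 : ℝ) - D) * a 1 + ((A 2 : ℝ) - D) * a 2 +
      ((A 3 : ℝ) - D) * a 3 = ((Y : ℝ) - D) * y + 3 * ((Z : ℝ) - D) * z := by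
    linear_combination hR - (D : ℝ) * hsum
  rw [hc] at hcz hcy
  rcases key 0 with ⟨a0, n0, m0⟩ | ⟨a0, n0, m0⟩ <;> rcases key 1 with ⟨a1, n1, m1⟩ | ⟨a1, n1, m1⟩ <;>
    rcases key 2 with ⟨a2, n2, m2⟩ | ⟨a2, n2, m2⟩ <;> rcases key 3 with ⟨a3, n3, m3⟩ | ⟨a3, n3, m3⟩
  all_goals first
    | (exfalso; linarith)
    | skip
  · refine ⟨3, one (a 3) y z (A 3) (n 3) (m 3) Y Z D hDZ' hDY' (by linarith) (by linarith)
      (by linarith) ?_ (hprop 3)⟩
    rw [a0, a1, a2] at hR'
    linear_combination hR'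
  · refine ⟨2, one (a 2) y z (A 2) (n 2) (m 2) Y Z D hDZ' hDY' (by linarith) (by linarith)
      (by linarith) ?_ (hprop 2)⟩
    rw [a0, a1, a3] at hR'
    linear_combination hR'
  · refine ⟨1, one (a 1) y z (A 1) (n 1) (m 1) Y Z D hDZ' hDY' (by linarith) (by linarith)
      (by linarith) ?_ (hprop 1)⟩
    rw [a0, a2, a3] at hR'
    linear_combination hR'
  · refine ⟨0, one (a 0) y z (A 0) (n 0) (m 0) Y Z D hDZ' hDY' (by linarith) (by linarith)
      (by linarith) ?_ (hprop 0)⟩
    rw [a1, a2, a3] at hR'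
    linear_combination hR'

end Pool.Agent.TetMid83
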