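import Pool.Agent.TetMid83.UltraM

/-! # The residue of the relation (helper90) -/

set_option autoImplicit false

open Complex
open Pool.Agent.TetRel Pool.Agent.TetRot Pool.Agent.TetRot.Resid

namespace Pool.Agent.TetMid83

/-- Residue of the relation: the values at `i` and at `-i` are balanced separately and the poles
are balanced. -/
theorem residue (p : Place) {a : Fin 4 → ℝ} {y z : ℝ} (h : Nrm a y z) (hR : Rel p a y z) :
    (max (vp p (a 0)) 0 + max (vp p (a 1)) 0 + max (vp p (a 2)) 0 + max (vp p (a 3)) 0 =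
      max (vp p y) 0 + 3 * max (vp p z) 0) ∧
    (max (vm p (a 0)) 0 + max (vm p (a 1)) 0 + max (vm p (a 2)) 0 + max (vm p (a 3)) 0 =
      max (vm p y) 0 + 3 * max (vm p z) 0) ∧
    (min (vp p (a 0)) 0 + min (vp p (a 1)) 0 + min (vp p (a 2)) 0 + min (vp p (a 3)) 0 =
      min (vp p y) 0 + 3 * min (vp p z) 0) := by
  have h1 : ((uu p (a 0) : ℚ) : ℂ) * (a 0 : ℂ) + ((uu p (a 1) : ℚ) : ℂ) * (a 1 : ℂ) +
      ((uu p (a 2) : ℚ) : ℂ) * (a 2 : ℂ) + ((uu p (a 3) : ℚ) : ℂ) * (a 3 : ℂ) =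
      ((uu p y : ℚ) : ℂ) * (y : ℂ) + 3 * (((uu p z : ℚ) : ℂ) * (z : ℂ)) := by
    have h2 := congrArg (fun t : ℝ => (t : ℂ)) hR
    push_cast at h2
    rw [h2]
    ring
  simp only [uu_mul] at h1
  have h2 : ((max (vp p (a 0)) 0 + max (vm p (a 0)) 0 + (max (vp p (a 1)) 0 + max (vm p (a 1)) 0) +
      (max (vp p (a 2)) 0 + max (vm p (a 2)) 0) + (max (vp p (a 3)) 0 + max (vm p (a 3)) 0) -
      (max (vp p y) 0 + max (vm p y) 0 + 3 * (max (vp p z) 0 + max (vm p z) 0)) : ℚ) : ℂ) * I =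
      (sm p y + ((3 : ℚ) : ℂ) * sm p z) - ∑ j, sm p (a j) := by
    rw [Fin.sum_univ_four]
    push_cast at h1 ⊢
    linear_combination h1
  have h3 : Small p (((max (vp p (a 0)) 0 + max (vm p (a 0)) 0 +
      (max (vp p (a 1)) 0 + max (vm p (a 1)) 0) +
      (max (vp p (a 2)) 0 + max (vm p (a 2)) 0) + (max (vp p (a 3)) 0 + max (vm p (a 3)) 0) -
      (max (vp p y) 0 + max (vm p y) 0 + 3 * (max (vp p z) 0 + max (vm p z) 0)) : ℚ) : ℂ) * I) := by
    rw [h2]
    exact ((small_sm p y).add ((small_sm p z).rat 3)).sub (small_sum fun j => small_sm p (a j))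
  have h4 : max (vp p (a 0)) 0 + max (vm p (a 0)) 0 +
      (max (vp p (a 1)) 0 + max (vm p (a 1)) 0) +
      (max (vp p (a 2)) 0 + max (vm p (a 2)) 0) + (max (vp p (a 3)) 0 + max (vm p (a 3)) 0) -
      (max (vp p y) 0 + max (vm p y) 0 + 3 * (max (vp p z) 0 + max (vm p z) 0)) = 0 := by
    by_contra hne
    rcases h3 with h5 | h5
    · exact (mul_ne_zero (Rat.cast_ne_zero.2 hne) I_ne_zero) h5
    · rw [p.rat_mul _ hne I I_ne_zero, p.vI] at h5
      exact lt_irrefl _ h5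
  have w1 := wt_p p h
  have w2 := wt_m p h
  have ey := uu_eq p y
  have ez := uu_eq p z
  have e0 := uu_eq p (a 0)
  have e1 := uu_eq p (a 1)
  have e2 := uu_eq p (a 2)
  have e3 := uu_eq p (a 3)
  have m : ∀ x : ℚ, min x 0 = x - max x 0 := fun x => by
    rw [eq_sub_iff_add_eq, min_add_max, add_zero]
  simp only [m]
  unfold uu at ey ez e0 e1 e2 e3
  refine ⟨?_, ?_, ?_⟩ <;> linarith

end Pool.Agent.TetMid83
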