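import Pool.Agent.TetMid83.UltraM
import Pool.Agent.TetMid83.LocPP
import Pool.Agent.TetMid83.ResM

/-! # The local classification (helper83) -/

set_option autoImplicit false

open Complex
open Pool.Agent.TetRel Pool.Agent.TetRot

namespace Pool.Agent.TetMid83

/-- a positive combination of numbers on one side -/
private lemma sum_lt (x : Fin 4 → ℚ) (a : Fin 4 → ℝ) (z : ℝ) (hx : ∀ i, 0 ≤ x i)
    (hs : 0 < x 0 + x 1 + x 2 + x 3) (haz : ∀ i, a i < z) :
    (x 0 : ℝ) * a 0 + (x 1 : ℝ) * a 1 + (x 2 : ℝ) * a 2 + (x 3 : ℝ) * a 3 <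
      ((x 0 + x 1 + x 2 + x 3 : ℚ) : ℝ) * z := by
  have hx' : ∀ i, (0 : ℝ) ≤ x i := fun i => by exact_mod_cast hx i
  have h1 : ∀ i, 0 ≤ (x i : ℝ) * (z - a i) := fun i => mul_nonneg (hx' i) (sub_pos.2 (haz i)).le
  have hex : ∃ i, 0 < x i := by
    by_contra hcon
    push Not at hcon
    have e0 := hcon 0
    have e1 := hcon 1
    have e2 := hcon 2
    have e3 := hcon 3
    linarith
  obtain ⟨i, hi⟩ := hex
  have h2 : 0 < (x i : ℝ) * (z - a i) := mul_pos (by exact_mod_cast hi) (sub_pos.2 (haz i))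
  have e0 := h1 0
  have e1 := h1 1
  have e2 := h1 2
  have e3 := h1 3
  push_cast
  fin_cases i <;> simp only [Fin.zero_eta, Fin.mk_one, Fin.reduceFinMk] at h2 <;> nlinarith

private lemma lt_sum (x : Fin 4 → ℚ) (a : Fin 4 → ℝ) (y : ℝ) (hx : ∀ i, 0 ≤ x i)
    (hs : 0 < x 0 + x 1 + x 2 + x 3) (hay : ∀ i, y < a i) :
    ((x 0 + x 1 + x 2 + x 3 : ℚ) : ℝ) * y <
      (x 0 : ℝ) * a 0 + (x 1 : ℝ) * a 1 + (x 2 : ℝ) * a 2 + (x 3 : ℝ) * a 3 := by
  have h := sum_lt x (fun i => - a i) (-y) hx hs fun i => neg_lt_neg (hay i)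
  linarith

private lemma le_sum (x : Fin 4 → ℚ) (a : Fin 4 → ℝ) (y : ℝ) (hx : ∀ i, 0 ≤ x i)
    (hay : ∀ i, y < a i) :
    ((x 0 + x 1 + x 2 + x 3 : ℚ) : ℝ) * y ≤
      (x 0 : ℝ) * a 0 + (x 1 : ℝ) * a 1 + (x 2 : ℝ) * a 2 + (x 3 : ℝ) * a 3 := by
  have hx' : ∀ i, (0 : ℝ) ≤ x i := fun i => by exact_mod_cast hx i
  have h1 : ∀ i, 0 ≤ (x i : ℝ) * (a i - y) := fun i => mul_nonneg (hx' i) (sub_pos.2 (hay i)).le
  have e0 := h1 0
  have e1 := h1 1
  have e2 := h1 2
  have e3 := h1 3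
  push_cast
  nlinarith

private lemma sum_le (x : Fin 4 → ℚ) (a : Fin 4 → ℝ) (z : ℝ) (hx : ∀ i, 0 ≤ x i)
    (haz : ∀ i, a i < z) :
    (x 0 : ℝ) * a 0 + (x 1 : ℝ) * a 1 + (x 2 : ℝ) * a 2 + (x 3 : ℝ) * a 3 ≤
      ((x 0 + x 1 + x 2 + x 3 : ℚ) : ℝ) * z := by
  have h := le_sum x (fun i => - a i) (-z) hx fun i => neg_lt_neg (haz i)
  linarith

/-- `z` near `i` -/
theorem loc_P (p : Place) {a : Fin 4 → ℝ} {y z : ℝ} (h : Nrm a y z) (hR : Rel p a y z)
    (hz : 0 < vp p z) : AllEq p a y z ∨ ∃ j, TyE p a y z j := by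
  obtain ⟨r1, r2, r3⟩ := residue p h hR
  have hzm : vm p z = 0 := by
    rcases trich p z with ⟨h1, h2⟩ | ⟨-, h2⟩ | ⟨h1, -⟩
    · linarith
    · exact h2
    · linarith
  -- the relation in terms of the positive parts
  have hR2 : ((max (vp p (a 0)) 0 : ℚ) : ℝ) * a 0 + ((max (vp p (a 1)) 0 : ℚ) : ℝ) * a 1 +
      ((max (vp p (a 2)) 0 : ℚ) : ℝ) * a 2 + ((max (vp p (a 3)) 0 : ℚ) : ℝ) * a 3 -
      (((max (vm p (a 0)) 0 : ℚ) : ℝ) * a 0 + ((max (vm p (a 1)) 0 : ℚ) : ℝ) * a 1 +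
      ((max (vm p (a 2)) 0 : ℚ) : ℝ) * a 2 + ((max (vm p (a 3)) 0 : ℚ) : ℝ) * a 3) =
      ((max (vp p y) 0 : ℚ) : ℝ) * y - ((max (vm p y) 0 : ℚ) : ℝ) * y +
        3 * ((max (vp p z) 0 : ℚ) : ℝ) * z - 3 * ((max (vm p z) 0 : ℚ) : ℝ) * z := by
    have h1 := hR
    unfold Rel at h1
    simp only [Resid.uu_eq] at h1
    simp only [Rat.cast_sub] at h1
    linear_combination h1
  have hx : ∀ i, 0 ≤ max (vp p (a i)) 0 := fun i => le_max_right _ _
  have hx' : ∀ i, 0 ≤ max (vm p (a i)) 0 := fun i => le_max_right _ _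
  have hzp : max (vp p z) 0 = vp p z := max_eq_left hz.le
  have hzm' : max (vm p z) 0 = 0 := by rw [hzm, max_self]
  have hyp : 0 < vp p y := by
    by_contra hcon
    push Not at hcon
    have hy0 : max (vp p y) 0 = 0 := max_eq_right hcon
    have s1 := sum_lt (fun i => max (vp p (a i)) 0) a z hx (by
      show 0 < max (vp p (a 0)) 0 + max (vp p (a 1)) 0 + max (vp p (a 2)) 0 + max (vp p (a 3)) 0
      rw [r1, hy0, hzp]; linarith) h.az
    have s2 := le_sum (fun i => max (vm p (a i)) 0) a y hx' h.ay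
    simp only [r1, r2, hy0, hzp, hzm'] at s1 s2
    rw [hy0, hzp, hzm'] at hR2
    push_cast at s1 s2 hR2
    linarith
  have hym : vm p y = 0 := by
    rcases trich p y with ⟨h1, h2⟩ | ⟨-, h2⟩ | ⟨h1, -⟩
    · linarith
    · exact h2
    · linarith
  have hvm : ∀ i, vm p (a i) ≤ 0 := by
    rw [hym, hzm'] at r2
    have e0 := hx' 0
    have e1 := hx' 1
    have e2 := hx' 2
    have e3 := hx' 3
    have f0 := le_max_left (vm p (a 0)) 0
    have f1 := le_max_left (vm p (a 1)) 0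
    have f2 := le_max_left (vm p (a 2)) 0
    have f3 := le_max_left (vm p (a 3)) 0
    rw [max_self] at r2
    intro i
    fin_cases i <;> simp only [Fin.zero_eta, Fin.mk_one, Fin.reduceFinMk] <;> linarith
  have hvp : ∀ i, 0 ≤ vp p (a i) := by
    rw [min_eq_right hyp.le, min_eq_right hz.le] at r3
    have e : ∀ i, min (vp p (a i)) 0 ≤ 0 := fun i => min_le_right _ _
    have e0 := e 0
    have e1 := e 1
    have e2 := e 2
    have e3 := e 3
    have f : ∀ i, min (vp p (a i)) 0 ≤ vp p (a i) := fun i => min_le_left _ _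
    have f0 := f 0
    have f1 := f 1
    have f2 := f 2
    have f3 := f 3
    intro i
    fin_cases i <;> simp only [Fin.zero_eta, Fin.mk_one, Fin.reduceFinMk] <;> linarith
  have hvm0 : ∀ i, vm p (a i) = 0 := by
    intro i
    rcases trich p (a i) with ⟨h1, h2⟩ | ⟨-, h2⟩ | ⟨-, h2⟩
    · have := hvp i
      linarith
    · exact h2
    · have := hvm i
      linarith
  have hw := wt_p p h
  have hcz := colz p h
  have hcy := coly p h
  rw [hzm, add_zero] at hcz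
  rw [hym, add_zero] at hcy
  have huu : ∀ i, uu p (a i) = vp p (a i) := fun i => by unfold uu; rw [hvm0 i, sub_zero]
  have huz : uu p z = vp p z := by unfold uu; rw [hzm, sub_zero]
  have huy : uu p y = vp p y := by unfold uu; rw [hym, sub_zero]
  rcases locPP a y z h.ay h.az (fun i => vp p (a i)) (fun i => p.v ((z : ℂ) - a i))
    (fun i => p.v ((a i : ℂ) - y)) (vp p y) (vp p z) (p.v (C2 a y z : ℂ)) hw
    (fun i => by
      have := row p h i
      rw [hvm0 i, add_zero] at this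
      exact this) hcz hcy h.sum
    (by
      have h1 := hR
      unfold Rel at h1
      rw [huu, huu, huu, huu, huy, huz] at h1
      exact h1)
    (fun i => by
      have := sub_p p z (a i) (h.az i).ne'
      rwa [min_comm] at this)
    (fun i hne => by
      have := sub_p_eq p z (a i) (fun hh => hne hh.symm)
      rwa [min_comm] at this)
    (fun i => sub_p p (a i) y (h.ay i).ne')
    (fun i hne => sub_p_eq p (a i) y hne)
    (fun i r s hr hrs => by
      have := v_prop p (a i - y) (z - a i) r s (sub_pos.2 (h.ay i)).ne'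
        (sub_pos.2 (h.az i)).ne' hr hrs
      push_cast at this
      exact this) with ⟨k1, k2⟩ | ⟨j, k1, k2, k3, k4⟩
  · left
    refine ⟨fun i => ?_, ?_⟩
    · rw [huu, huz]; exact k1 i
    · rw [huy, huz]; exact k2
  · right
    exact ⟨j, ⟨k1, hz, k2, hzm, hym, hvm0, k3, k4⟩⟩

/-- `z` away from `i` and `-i` -/
theorem loc_N (p : Place) {a : Fin 4 → ℝ} {y z : ℝ} (h : Nrm a y z) (hR : Rel p a y z)
    (hz : uu p z = 0) : AllEq p a y z := by
  obtain ⟨r1, r2, r3⟩ := residue p h hR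
  have hzp : max (vp p z) 0 = 0 ∧ max (vm p z) 0 = 0 := by
    unfold uu at hz
    rcases trich p z with ⟨h1, h2⟩ | ⟨h1, h2⟩ | ⟨h1, h2⟩
    · exact ⟨max_eq_right h2, by rw [← h1]; exact max_eq_right h2⟩
    · linarith
    · linarith
  have hR2 : ((max (vp p (a 0)) 0 : ℚ) : ℝ) * a 0 + ((max (vp p (a 1)) 0 : ℚ) : ℝ) * a 1 +
      ((max (vp p (a 2)) 0 : ℚ) : ℝ) * a 2 + ((max (vp p (a 3)) 0 : ℚ) : ℝ) * a 3 -
      (((max (vm p (a 0)) 0 : ℚ) : ℝ) * a 0 + ((max (vm p (a 1)) 0 : ℚ) : ℝ) * a 1 +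
      ((max (vm p (a 2)) 0 : ℚ) : ℝ) * a 2 + ((max (vm p (a 3)) 0 : ℚ) : ℝ) * a 3) =
      ((max (vp p y) 0 : ℚ) : ℝ) * y - ((max (vm p y) 0 : ℚ) : ℝ) * y +
        3 * ((max (vp p z) 0 : ℚ) : ℝ) * z - 3 * ((max (vm p z) 0 : ℚ) : ℝ) * z := by
    have h1 := hR
    unfold Rel at h1
    simp only [Resid.uu_eq] at h1
    simp only [Rat.cast_sub] at h1
    linear_combination h1
  have hx : ∀ i, 0 ≤ max (vp p (a i)) 0 := fun i => le_max_right _ _
  have hx' : ∀ i, 0 ≤ max (vm p (a i)) 0 := fun i => le_max_right _ _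
  rw [hzp.1] at r1 hR2
  rw [hzp.2] at r2 hR2
  have hyb : max (vp p y) 0 = 0 ∨ max (vm p y) 0 = 0 := by
    rcases trich p y with ⟨h1, h2⟩ | ⟨h1, h2⟩ | ⟨h1, h2⟩
    · exact Or.inl (max_eq_right h2)
    · right; rw [h2, max_self]
    · left; rw [h1, max_self]
  have hyp : max (vp p y) 0 = 0 := by
    rcases hyb with hy | hy
    · exact hy
    by_contra hne
    have hpos : 0 < max (vp p y) 0 := lt_of_le_of_ne (le_max_right _ _) (fun hh => hne hh.symm)
    have s1 := lt_sum (fun i => max (vp p (a i)) 0) a y hx (by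
      show 0 < max (vp p (a 0)) 0 + max (vp p (a 1)) 0 + max (vp p (a 2)) 0 + max (vp p (a 3)) 0
      rw [r1]; linarith) h.ay
    have s2 := sum_le (fun i => max (vm p (a i)) 0) a z hx' h.az
    simp only [r1, r2, hy] at s1 s2
    rw [hy] at hR2
    push_cast at s1 s2 hR2
    linarith
  have hym : max (vm p y) 0 = 0 := by
    by_contra hne
    have hpos : 0 < max (vm p y) 0 := lt_of_le_of_ne (le_max_right _ _) (fun hh => hne hh.symm)
    have s1 := lt_sum (fun i => max (vm p (a i)) 0) a y hx' (by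
      show 0 < max (vm p (a 0)) 0 + max (vm p (a 1)) 0 + max (vm p (a 2)) 0 + max (vm p (a 3)) 0
      rw [r2]; linarith) h.ay
    have s2 := sum_le (fun i => max (vp p (a i)) 0) a z hx h.az
    simp only [r1, r2, hyp] at s1 s2
    rw [hyp] at hR2
    push_cast at s1 s2 hR2
    linarith
  rw [hyp] at r1
  rw [hym] at r2
  have g1 : ∀ i, max (vp p (a i)) 0 = 0 := by
    have e0 := hx 0
    have e1 := hx 1
    have e2 := hx 2
    have e3 := hx 3
    intro i
    fin_cases i <;> simp only [Fin.zero_eta, Fin.mk_one, Fin.reduceFinMk] <;> linarith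
  have g2 : ∀ i, max (vm p (a i)) 0 = 0 := by
    have e0 := hx' 0
    have e1 := hx' 1
    have e2 := hx' 2
    have e3 := hx' 3
    intro i
    fin_cases i <;> simp only [Fin.zero_eta, Fin.mk_one, Fin.reduceFinMk] <;> linarith
  refine ⟨fun i => ?_, ?_⟩
  · rw [Resid.uu_eq, g1, g2, hz, sub_self]
  · rw [Resid.uu_eq, hyp, hym, hz, sub_self]

theorem AllEq.conj {p : Place} {a : Fin 4 → ℝ} {y z : ℝ} (h : AllEq p.conj a y z) :
    AllEq p a y z := by
  obtain ⟨h1, h2⟩ := h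
  simp only [uu_conj] at h1 h2
  exact ⟨fun i => neg_injective (h1 i), neg_injective h2⟩

theorem loc_all (p : Place) {a : Fin 4 → ℝ} {y z : ℝ} (h : Nrm a y z) (hR : Rel p a y z) :
    Loc p a y z := by
  rcases trich p z with ⟨h1, h2⟩ | ⟨h1, h2⟩ | ⟨h1, h2⟩
  · exact Or.inl (loc_N p h hR (by unfold uu; rw [h1, sub_self]))
  · rcases loc_P p h hR h1 with h3 | h3
    · exact Or.inl h3
    · exact Or.inr (Or.inl h3)
  · rcases loc_P p.conj h (Rel.conj hR) (by rw [vp_conj]; exact h2) with h3 | h3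
    · exact Or.inl h3.conj
    · exact Or.inr (Or.inr h3)

end Pool.Agent.TetMid83
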