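import Pool.Agent.TetMid83.Defs

/-! # The polynomial identity of the normalised coordinates and its values (helper83) -/

set_option autoImplicit false

open Complex
open Pool.Agent.TetRel Pool.Agent.TetRot

namespace Pool.Agent.TetMid83

private lemma re_im {r s : ℝ} (h : (r : ℂ) + (s : ℂ) * I = 0) : r = 0 ∧ s = 0 := by
  have h1 := congrArg Complex.re h
  have h2 := congrArg Complex.im h
  simp at h1 h2
  exact ⟨h1, h2⟩

theorem poly {a : Fin 4 → ℝ} {y z : ℝ} (h : Nrm a y z) (X : ℝ) :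
    (X - a 0) * (X - a 1) * (X - a 2) * (X - a 3) - (X - y) * (X - z) ^ 3 =
      C2 a y z * (X ^ 2 + 1) := by
  have hs := h.sum
  have hsC : (a 0 : ℂ) + a 1 + a 2 + a 3 = (y : ℂ) + 3 * z := by
    exact_mod_cast congrArg (fun r : ℝ => (r : ℂ)) hs
  have key := re_im (r := (a 0 * a 1 * a 2 * a 3 - y * z ^ 3) - C2 a y z)
    (s := -(a 0 * a 1 * a 2 + a 0 * a 1 * a 3 + a 0 * a 2 * a 3 + a 1 * a 2 * a 3) +
      (3 * y * z ^ 2 + z ^ 3)) (by
      unfold C2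
      push_cast
      linear_combination h.eqn - ((a 0 : ℂ) * a 1 + a 0 * a 2 + a 0 * a 3 + a 1 * a 2 +
        a 1 * a 3 + a 2 * a 3 - 3 * (y : ℂ) * z - 3 * (z : ℂ) ^ 2) * I_sq + I ^ 3 * hsC)
  obtain ⟨k1, k2⟩ := key
  unfold C2 at k1 ⊢
  linear_combination -X ^ 3 * hs + X * k2 + k1

theorem C2_ne {a : Fin 4 → ℝ} {y z : ℝ} (h : Nrm a y z) : C2 a y z ≠ 0 := by
  intro h0
  have h1 := poly h (a 0)
  rw [h0, zero_mul] at h1
  have h2 : (a 0 - y) * (z - a 0) ^ 3 = 0 := by linear_combination h1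
  exact mul_ne_zero (sub_pos.2 (h.ay 0)).ne' (pow_ne_zero 3 (sub_pos.2 (h.az 0)).ne') h2

theorem ya {a : Fin 4 → ℝ} {y z : ℝ} (h : Nrm a y z) (i : Fin 4) : (a i : ℂ) - y ≠ 0 :=
  ofReal_sub_ne (h.ay i).ne'

theorem za {a : Fin 4 → ℝ} {y z : ℝ} (h : Nrm a y z) (i : Fin 4) : (z : ℂ) - a i ≠ 0 :=
  ofReal_sub_ne (h.az i).ne'

private lemma val_four (p : Place) {x y z w : ℂ} (hx : x ≠ 0) (hy : y ≠ 0) (hz : z ≠ 0)
    (hw : w ≠ 0) : p.v (x * y * z * w) = p.v x + p.v y + p.v z + p.v w := by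
  rw [p.mul _ _ (mul_ne_zero (mul_ne_zero hx hy) hz) hw, p.mul _ _ (mul_ne_zero hx hy) hz,
    p.mul _ _ hx hy]

private lemma val_three (p : Place) {x y : ℂ} (hx : x ≠ 0) (hy : y ≠ 0) :
    p.v (x * y ^ 3) = p.v x + 3 * p.v y := by
  rw [p.mul _ _ hx (pow_ne_zero 3 hy), p.pow y hy 3]
  norm_num

theorem wt_p (p : Place) {a : Fin 4 → ℝ} {y z : ℝ} (h : Nrm a y z) :
    vp p (a 0) + vp p (a 1) + vp p (a 2) + vp p (a 3) = vp p y + 3 * vp p z := by
  have h1 := congrArg p.v h.eqn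
  rw [val_four p (ne_p _) (ne_p _) (ne_p _) (ne_p _), val_three p (ne_p _) (ne_p _)] at h1
  exact h1

theorem wt_m (p : Place) {a : Fin 4 → ℝ} {y z : ℝ} (h : Nrm a y z) :
    vm p (a 0) + vm p (a 1) + vm p (a 2) + vm p (a 3) = vm p y + 3 * vm p z := by
  have h0 := congrArg (starRingEnd ℂ) h.eqn
  simp only [map_mul, map_pow, map_sub, Complex.conj_ofReal, Complex.conj_I, sub_neg_eq_add] at h0
  have h1 := congrArg p.v h0
  rw [val_four p (ne_m _) (ne_m _) (ne_m _) (ne_m _), val_three p (ne_m _) (ne_m _)] at h1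
  exact h1

theorem v_rhs (p : Place) {a : Fin 4 → ℝ} {y z : ℝ} (h : Nrm a y z) (x : ℝ) :
    p.v ((C2 a y z : ℂ) * (((x : ℂ) - I) * ((x : ℂ) + I))) =
      p.v (C2 a y z : ℂ) + vp p x + vm p x := by
  rw [p.mul _ _ (by exact_mod_cast C2_ne h) (mul_ne_zero (ne_p x) (ne_m x)),
    p.mul _ _ (ne_p x) (ne_m x)]
  unfold vp vm
  ring

theorem row (p : Place) {a : Fin 4 → ℝ} {y z : ℝ} (h : Nrm a y z) (i : Fin 4) :
    p.v ((a i : ℂ) - y) + 3 * p.v ((z : ℂ) - a i) =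
      p.v (C2 a y z : ℂ) + vp p (a i) + vm p (a i) := by
  have hz : (a i - a 0) * (a i - a 1) * (a i - a 2) * (a i - a 3) = 0 := by
    fin_cases i <;> simp
  have h0 : (a i - y) * (z - a i) ^ 3 = C2 a y z * (a i ^ 2 + 1) := by
    linear_combination poly h (a i) - hz
  have h1 := congrArg (fun r : ℝ => (r : ℂ)) h0
  push_cast at h1
  have h2 : ((a i : ℂ) - y) * ((z : ℂ) - a i) ^ 3 =
      (C2 a y z : ℂ) * (((a i : ℂ) - I) * ((a i : ℂ) + I)) := by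
    linear_combination h1 + (C2 a y z : ℂ) * I_sq
  have h3 := congrArg p.v h2
  rw [val_three p (ya h i) (za h i), v_rhs p h] at h3
  exact h3

theorem colz (p : Place) {a : Fin 4 → ℝ} {y z : ℝ} (h : Nrm a y z) :
    p.v ((z : ℂ) - a 0) + p.v ((z : ℂ) - a 1) + p.v ((z : ℂ) - a 2) + p.v ((z : ℂ) - a 3) =
      p.v (C2 a y z : ℂ) + vp p z + vm p z := by
  have h0 : (z - a 0) * (z - a 1) * (z - a 2) * (z - a 3) = C2 a y z * (z ^ 2 + 1) := by
    linear_combination poly h z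
  have h1 := congrArg (fun r : ℝ => (r : ℂ)) h0
  push_cast at h1
  have h2 : ((z : ℂ) - a 0) * ((z : ℂ) - a 1) * ((z : ℂ) - a 2) * ((z : ℂ) - a 3) =
      (C2 a y z : ℂ) * (((z : ℂ) - I) * ((z : ℂ) + I)) := by
    linear_combination h1 + (C2 a y z : ℂ) * I_sq
  have h3 := congrArg p.v h2
  rw [val_four p (za h 0) (za h 1) (za h 2) (za h 3), v_rhs p h] at h3
  exact h3

theorem coly (p : Place) {a : Fin 4 → ℝ} {y z : ℝ} (h : Nrm a y z) :
    p.v ((a 0 : ℂ) - y) + p.v ((a 1 : ℂ) - y) + p.v ((a 2 : ℂ) - y) + p.v ((a 3 : ℂ) - y) =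
      p.v (C2 a y z : ℂ) + vp p y + vm p y := by
  have h0 : (a 0 - y) * (a 1 - y) * (a 2 - y) * (a 3 - y) = C2 a y z * (y ^ 2 + 1) := by
    linear_combination poly h y
  have h1 := congrArg (fun r : ℝ => (r : ℂ)) h0
  push_cast at h1
  have h2 : ((a 0 : ℂ) - y) * ((a 1 : ℂ) - y) * ((a 2 : ℂ) - y) * ((a 3 : ℂ) - y) =
      (C2 a y z : ℂ) * (((y : ℂ) - I) * ((y : ℂ) + I)) := by
    linear_combination h1 + (C2 a y z : ℂ) * I_sq
  have h3 := congrArg p.v h2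
  rw [val_four p (ya h 0) (ya h 1) (ya h 2) (ya h 3), v_rhs p h] at h3
  exact h3

theorem Rel.conj {p : Place} {a : Fin 4 → ℝ} {y z : ℝ} (h : Rel p a y z) :
    Rel p.conj a y z := by
  unfold Rel at h ⊢
  simp only [uu_conj]
  push_cast
  linear_combination -h

end Pool.Agent.TetMid83
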