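import Pool.Agent.TetMid83.NormM
import Pool.Agent.TetMid83.AngleM
import Pool.Agent.TetMid83.UltraM

/-! # Tetrahedra with a midsphere: the linear relation given by a place (helper97) -/

set_option autoImplicit false

open Complex
open Pool.Agent.TetRel Pool.Agent.TetRot

namespace Pool.Agent.TetMid83

/-- the relation of one type -/
theorem rel_type (v : Fin 4 → E3) (hv : AffineIndependent ℝ v) (r : Fin 4 → ℝ)
    (hl : len v = lr r) (ξ η : ℝ) (hη : 0 < η) (hr : Root r ξ η) (n : Fin 6 → ℕ)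
    (hn : ∑ e, (n e : ℝ) * dih v e = 2 * Real.pi) (p : Place) :
    ∑ e, (n e : ℝ) * ((uu p (aM r ξ η (ec e)) : ℝ) + (uu p (aM r ξ η (ed e)) : ℝ) -
      2 * (uu p (zM r ξ η) : ℝ)) = 0 := by
  have h1 := congrArg p.v (prod_exp v n hn)
  rw [p.one, p.prod _ _ fun e _ => pow_ne_zero _ (Complex.exp_ne_zero _)] at h1
  have h2 : ∀ e, p.v (exp (2 * I * dih v e) ^ (n e)) =
      -((n e : ℚ) * (uu p (aM r ξ η (ec e)) + uu p (aM r ξ η (ed e)) -
        2 * uu p (zM r ξ η))) := by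
    intro e
    rw [p.pow _ (Complex.exp_ne_zero _) _, exp_dih v hv r hl ξ η hη hr e, v_zz_mul]
    ring
  simp only [h2, Finset.sum_neg_distrib, neg_eq_zero] at h1
  exact_mod_cast h1

theorem rel_of_tiles (v : Fin 4 → E3) (hv : AffineIndependent ℝ v) (r : Fin 4 → ℝ)
    (hl : len v = lr r) (ξ η : ℝ) (hη : 0 < η) (hr : Root r ξ η) (hT : Tiles v) (p : Place) :
    Rel p (aM r ξ η) (yM ξ η) (zM r ξ η) := by
  obtain ⟨k, n, c, -, -, htype, -, hlen⟩ := cone v hv hT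
  have hN := nrm_of_root v hv r hl ξ η hη hr
  have hw := wt_p p hN
  have hw' := wt_m p hN
  set U : Fin 4 → ℚ := fun i => uu p (aM r ξ η i) with hU
  set W := uu p (zM r ξ η) with hW
  set V := uu p (yM ξ η) with hV
  have hsum : U 0 + U 1 + U 2 + U 3 = V + 3 * W := by
    rw [hV, hW]
    simp only [hU, uu]
    linear_combination hw - hw'
  have hsum' : (U 0 : ℝ) + U 1 + U 2 + U 3 = V + 3 * W := by exact_mod_cast hsum
  have hrel : ∑ e, len v e * ((U (ec e) : ℝ) + (U (ed e) : ℝ) - 2 * (W : ℝ)) = 0 := by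
    have ht : ∀ i, ∑ e, (n i e : ℝ) * ((U (ec e) : ℝ) + (U (ed e) : ℝ) - 2 * (W : ℝ)) = 0 :=
      fun i => rel_type v hv r hl ξ η hη hr (n i) (htype i) p
    simp only [hlen, Finset.sum_mul]
    rw [Finset.sum_comm]
    refine Finset.sum_eq_zero fun i _ => ?_
    have h1 : ∀ e, c i * (n i e : ℝ) * ((U (ec e) : ℝ) + (U (ed e) : ℝ) - 2 * (W : ℝ)) =
        c i * ((n i e : ℝ) * ((U (ec e) : ℝ) + (U (ed e) : ℝ) - 2 * (W : ℝ))) :=
      fun e => by ring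
    simp only [h1]
    rw [← Finset.mul_sum, ht i, mul_zero]
  rw [hl, Fin.sum_univ_six] at hrel
  have l0 : lr r 0 = r 0 + r 1 := rfl
  have l1 : lr r 1 = r 0 + r 2 := rfl
  have l2 : lr r 2 = r 0 + r 3 := rfl
  have l3 : lr r 3 = r 1 + r 2 := rfl
  have l4 : lr r 4 = r 1 + r 3 := rfl
  have l5 : lr r 5 = r 2 + r 3 := rfl
  have c0 : ec 0 = 2 := rfl
  have c1 : ec 1 = 1 := rfl
  have c2 : ec 2 = 1 := rfl
  have c3 : ec 3 = 0 := rfl
  have c4 : ec 4 = 0 := rfl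
  have c5 : ec 5 = 0 := rfl
  have d0 : ed 0 = 3 := rfl
  have d1 : ed 1 = 3 := rfl
  have d2 : ed 2 = 2 := rfl
  have d3 : ed 3 = 3 := rfl
  have d4 : ed 4 = 2 := rfl
  have d5 : ed 5 = 1 := rfl
  rw [l0, l1, l2, l3, l4, l5, c0, c1, c2, c3, c4, c5, d0, d1, d2, d3, d4, d5] at hrel
  unfold Rel
  change (U 0 : ℝ) * aM r ξ η 0 + (U 1 : ℝ) * aM r ξ η 1 + (U 2 : ℝ) * aM r ξ η 2 +
    (U 3 : ℝ) * aM r ξ η 3 = (V : ℝ) * yM ξ η + 3 * (W : ℝ) * zM r ξ η
  simp only [aM, yM, zM, sg]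
  have hη' : η ≠ 0 := hη.ne'
  field_simp
  linear_combination hrel / 2 - ξ * hsum'

end Pool.Agent.TetMid83
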