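import Pool.Agent.TetMid83.NormM
import Pool.Agent.TetMid83.RelM
import Pool.Agent.TetMid83.LocalM
import Pool.Agent.TetMid83.GlobM
import Pool.Agent.TetMid83.AlgM
import Pool.Agent.TetMir57.SymFinal

/-! # Tetrahedra with a midsphere: the main theorem (helper83) -/

set_option autoImplicit false

open Complex
open Pool.Agent.TetRel Pool.Agent.TetRot

namespace Pool.Agent.TetMid83

theorem ratio_alg (r : Fin 4 → ℝ) (ξ η : ℝ) (hη : 0 < η)
    (ha : ∀ i, IsAlgebraic ℚ ((aM r ξ η i : ℝ) : ℂ)) (hz : IsAlgebraic ℚ ((zM r ξ η : ℝ) : ℂ))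
    (e f : Fin 6) : IsAlgebraic ℚ (lr r e / lr r f) := by
  have hη' : η ≠ 0 := hη.ne'
  have h1 : ∀ c, IsAlgebraic ℚ (r c / η) := by
    intro c
    have h2 := hz.sub (ha c)
    have h3 : ((zM r ξ η : ℝ) : ℂ) - ((aM r ξ η c : ℝ) : ℂ) = ((r c / η : ℝ) : ℂ) := by
      rw [← Complex.ofReal_sub]
      congr 1
      unfold zM aM
      ring
    rw [h3] at h2
    exact (isAlgebraic_algebraMap_iff (R := ℚ) (S := ℝ) (A := ℂ)
      (algebraMap ℝ ℂ).injective).1 h2
  have h2 : ∀ e, IsAlgebraic ℚ (lr r e / η) := by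
    intro e
    have : ∃ c d, lr r e = r c + r d := by
      fin_cases e
      · exact ⟨0, 1, rfl⟩
      · exact ⟨0, 2, rfl⟩
      · exact ⟨0, 3, rfl⟩
      · exact ⟨1, 2, rfl⟩
      · exact ⟨1, 3, rfl⟩
      · exact ⟨2, 3, rfl⟩
    obtain ⟨c, d, h⟩ := this
    rw [h, add_div]
    exact (h1 c).add (h1 d)
  have h3 : lr r e / lr r f = (lr r e / η) / (lr r f / η) := by
    rw [div_div_div_cancel_right₀ hη']
  rw [h3, div_eq_mul_inv]
  exact (h2 e).mul (h2 f).inv

theorem exists_lr (v : Fin 4 → E3)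
    (h1 : dist (v 0) (v 1) + dist (v 2) (v 3) = dist (v 0) (v 2) + dist (v 1) (v 3))
    (h2 : dist (v 0) (v 1) + dist (v 2) (v 3) = dist (v 0) (v 3) + dist (v 1) (v 2)) :
    ∃ r : Fin 4 → ℝ, len v = lr r := by
  have e1 : len v 0 + len v 5 = len v 1 + len v 4 := h1
  have e2 : len v 0 + len v 5 = len v 2 + len v 3 := h2
  refine ⟨![(len v 0 + len v 1 - len v 3) / 2, (len v 0 + len v 3 - len v 1) / 2,
    (len v 1 + len v 3 - len v 0) / 2, (len v 2 + len v 4 - len v 0) / 2], ?_⟩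
  funext e
  fin_cases e <;> simp [lr] <;> linarith

theorem mid_alg (v : Fin 4 → E3) (hv : AffineIndependent ℝ v)
    (h1 : dist (v 0) (v 1) + dist (v 2) (v 3) = dist (v 0) (v 2) + dist (v 1) (v 3))
    (h2 : dist (v 0) (v 1) + dist (v 2) (v 3) = dist (v 0) (v 3) + dist (v 1) (v 2))
    (hT : Tiles v) (i j k l : Fin 4) :
    IsAlgebraic ℚ (dist (v i) (v j) / dist (v k) (v l)) := by
  obtain ⟨r, hl⟩ := exists_lr v h1 h2
  obtain ⟨ξ, η, hη, hr⟩ := exists_root v hv r hl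
  have hN := nrm_of_root v hv r hl ξ η hη hr
  have hR := rel_of_tiles v hv r hl ξ η hη hr hT
  have hL := fun p => loc_all p hN (hR p)
  obtain ⟨ha, -, hz⟩ := alg_of_all_eq hN (all_eq hN hL)
  have hrat := ratio_alg r ξ η hη ha hz
  have key : ∀ i j : Fin 4, dist (v i) (v j) = 0 ∨ ∃ e, dist (v i) (v j) = len v e := by
    intro i j
    by_cases hij : i = j
    · left
      rw [hij, dist_self]
    · right
      have : ∃ e : Fin 6, (ea e = i ∧ eb e = j) ∨ (ea e = j ∧ eb e = i) := by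
        revert i j
        decide
      obtain ⟨e, ⟨h1, h2⟩ | ⟨h1, h2⟩⟩ := this
      · exact ⟨e, by rw [len, h1, h2]⟩
      · exact ⟨e, by rw [len, h1, h2, dist_comm]⟩
  rcases key i j with h3 | ⟨e, h3⟩
  · rw [h3, zero_div]; exact isAlgebraic_zero
  rcases key k l with h4 | ⟨f, h4⟩
  · rw [h4, div_zero]; exact isAlgebraic_zero
  rw [h3, h4, hl]
  exact hrat e f

/-- Tetrahedra with a nontrivial symmetry or with a midsphere. -/
theorem sym_or_mid (v : Fin 4 → E3) (hv : AffineIndependent ℝ v)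
    (h : (∃ σ : Equiv.Perm (Fin 4), σ ≠ 1 ∧
        ∀ i j, dist (v (σ i)) (v (σ j)) = dist (v i) (v j)) ∨
      (dist (v 0) (v 1) + dist (v 2) (v 3) = dist (v 0) (v 2) + dist (v 1) (v 3) ∧
        dist (v 0) (v 1) + dist (v 2) (v 3) = dist (v 0) (v 3) + dist (v 1) (v 2)))
    (hna : ∃ i j k l : Fin 4, ¬ IsAlgebraic ℚ (dist (v i) (v j) / dist (v k) (v l))) :
    (Tiles v ↔ TetRot.Hill v) ∧ (Tiles v → TetRot.TilesPer v) := by
  rcases h with hsym | ⟨h1, h2⟩
  · exact TetMir.sym v hv hsym hna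
  · have hT : ¬ Tiles v := by
      intro hT
      obtain ⟨i, j, k, l, hijkl⟩ := hna
      exact hijkl (mid_alg v hv h1 h2 hT i j k l)
    exact ⟨⟨fun h => absurd h hT, fun h => absurd (per_of_hill hv h).tiles hT⟩,
      fun h => absurd h hT⟩

end Pool.Agent.TetMid83
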