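import Pool.Agent.TetMid83.UltraM

/-! # The global theorem for tetrahedra with a midsphere: from the bound and the leading
coefficient (helper10) -/

set_option autoImplicit false

open Complex
open Pool.Agent.TetRel Pool.Agent.TetRot

namespace Pool.Agent.TetMid83

/-- the value of the product of all `a i ^ 2 + 1` -/
theorem vG_eq (p : Place) {a : Fin 4 → ℝ} {y z : ℝ} (h : Nrm a y z) :
    vG p a = vp p y + vm p y + 3 * (vp p z + vm p z) := by
  have h1 := wt_p p h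
  have h2 := wt_m p h
  unfold vG
  linarith

/-- the value of `g ^ 2 + 1` -/
theorem v_sq_add_one (p : Place) (g : ℝ) : p.v ((g : ℂ) ^ 2 + 1) = vp p g + vm p g := by
  have e : (g : ℂ) ^ 2 + 1 = ((g : ℂ) - I) * ((g : ℂ) + I) := by
    have hI : I * I = -1 := I_mul_I
    linear_combination hI
  rw [e, p.mul _ _ (ne_p g) (ne_m g)]
  rfl

theorem sq_add_one_ne (g : ℝ) : (g : ℂ) ^ 2 + 1 ≠ 0 := by
  have h1 : (0 : ℝ) < g ^ 2 + 1 := by positivity
  have h2 : ((g ^ 2 + 1 : ℝ) : ℂ) ≠ 0 := by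
    exact_mod_cast h1.ne'
  push_cast at h2
  exact h2

/-- the value of the quotient -/
theorem v_quot (p : Place) {a : Fin 4 → ℝ} {y z : ℝ} (h : Nrm a y z) (j : Fin 4) :
    p.v (((z - a j) ^ 4 / ((y ^ 2 + 1) * (z ^ 2 + 1) ^ 3) : ℝ) : ℂ) =
      4 * p.v ((z : ℂ) - a j) - vG p a := by
  have hz : (z : ℂ) - a j ≠ 0 := ofReal_sub_ne (h.az j).ne'
  push_cast
  rw [p.div _ _ (pow_ne_zero _ hz) (mul_ne_zero (sq_add_one_ne y) (pow_ne_zero _ (sq_add_one_ne z))),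
    p.mul _ _ (sq_add_one_ne y) (pow_ne_zero _ (sq_add_one_ne z)),
    p.pow _ (sq_add_one_ne z), p.pow _ hz, v_sq_add_one, v_sq_add_one, vG_eq p h]
  push_cast
  ring

/-- there is no exceptional place -/
theorem no_TyE {a : Fin 4 → ℝ} {y z : ℝ} (h : Nrm a y z) (hL : ∀ p, Loc p a y z)
    (hbound : ∀ (p : Place) (j : Fin 4), a j - y = 3 * (z - a j) →
      vG p a ≤ 4 * p.v ((z : ℂ) - a j))
    (hlead : ∀ (p : Place) (j : Fin 4), TyE p a y z j →
      (z - a j) ^ 4 / ((y ^ 2 + 1) * (z ^ 2 + 1) ^ 3) + 1 / 48 = 0 ∨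
        0 < p.v (((z - a j) ^ 4 / ((y ^ 2 + 1) * (z ^ 2 + 1) ^ 3) + 1 / 48 : ℝ) : ℂ))
    (p : Place) (j : Fin 4) (hE : TyE p a y z j) : False := by
  set x : ℝ := (z - a j) ^ 4 / ((y ^ 2 + 1) * (z ^ 2 + 1) ^ 3) with hx
  have hx0 : 0 ≤ x := by positivity
  have halg : IsAlgebraic ℚ (x : ℂ) := by
    by_contra hna
    obtain ⟨q, hq⟩ := exists_place _ hna
    have h1 := v_quot q h j
    have h2 := hbound q j hE.eq
    rw [← hx] at h1
    rw [h1] at hq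
    linarith
  have halg' : IsAlgebraic ℚ ((x + 1 / 48 : ℝ) : ℂ) := by
    have h48 : IsAlgebraic ℚ ((1 / 48 : ℚ) : ℂ) := by
      have := isAlgebraic_algebraMap (R := ℚ) (A := ℂ) (1 / 48 : ℚ)
      simpa using this
    have h1 := halg.add h48
    have e : ((x + 1 / 48 : ℝ) : ℂ) = (x : ℂ) + ((1 / 48 : ℚ) : ℂ) := by
      push_cast
      ring
    rw [e]
    exact h1
  rcases hlead p j hE with h1 | h1
  · linarith
  · have hne : ((x + 1 / 48 : ℝ) : ℂ) ≠ 0 := by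
      have h2 : (0 : ℝ) < x + 1 / 48 := by positivity
      exact_mod_cast h2.ne'
    rw [p.alg _ hne halg'] at h1
    exact lt_irrefl _ h1

theorem all_eq_of {a : Fin 4 → ℝ} {y z : ℝ} (h : Nrm a y z) (hL : ∀ p, Loc p a y z)
    (hbound : ∀ (p : Place) (j : Fin 4), a j - y = 3 * (z - a j) →
      vG p a ≤ 4 * p.v ((z : ℂ) - a j))
    (hlead : ∀ (p : Place) (j : Fin 4), TyE p a y z j →
      (z - a j) ^ 4 / ((y ^ 2 + 1) * (z ^ 2 + 1) ^ 3) + 1 / 48 = 0 ∨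
        0 < p.v (((z - a j) ^ 4 / ((y ^ 2 + 1) * (z ^ 2 + 1) ^ 3) + 1 / 48 : ℝ) : ℂ)) :
    ∀ p, AllEq p a y z := by
  intro p
  rcases hL p with h1 | ⟨j, h1⟩ | ⟨j, h1⟩
  · exact h1
  · exact (no_TyE h hL hbound hlead p j h1).elim
  · exact (no_TyE h hL hbound hlead p.conj j h1).elim

end Pool.Agent.TetMid83
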