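import Pool.Agent.TetMid83.Defs
import Pool.Agent.TetDim.BasicG

/-!
# Normalisation of the coordinates of a tetrahedron with a midsphere (helper64)

`r_pos`: the tangent lengths are positive. `exists_root`: the quadratic has a root `ξ + i η`,
`η > 0`. `nrm_of_root`: the normalised coordinates satisfy `Nrm`.
-/

set_option autoImplicit false

open Complex
open Pool.Agent.TetRel Pool.Agent.TetRot

namespace Pool.Agent.TetMid83

theorem r_pos (v : Fin 4 → E3) (hv : AffineIndependent ℝ v) (r : Fin 4 → ℝ) (hl : len v = lr r) :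
    ∀ c, 0 < r c := by
  obtain ⟨hG, _, _⟩ := TetDim.basic v hv
  have hT := hG.1
  rw [hl] at hT
  have t0 := hT 0 0
  have t1 := hT 1 0
  have t2 := hT 2 0
  have t3 := hT 3 0
  simp only [TetDim.D, TetDim.S, lr, Matrix.cons_val] at t0 t1 t2 t3
  intro c
  fin_cases c
  · show 0 < r 0
    linarith
  · show 0 < r 1
    linarith
  · show 0 < r 2
    linarith
  · show 0 < r 3
    linarith

theorem discM (r : Fin 4 → ℝ) : TetDim.P (lr r) = 16 * (4 * e2 r * e4 r - e3 r ^ 2) := by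
  simp only [TetDim.P, lr, e2, e3, e4, Matrix.cons_val]
  ring

theorem e2_posM {r : Fin 4 → ℝ} (h : ∀ c, 0 < r c) : 0 < e2 r := by
  have h0 := h 0
  have h1 := h 1
  have h2 := h 2
  have h3 := h 3
  unfold e2
  positivity

theorem exists_root (v : Fin 4 → E3) (hv : AffineIndependent ℝ v) (r : Fin 4 → ℝ)
    (hl : len v = lr r) : ∃ ξ η : ℝ, 0 < η ∧ Root r ξ η := by
  have hr := r_pos v hv r hl
  have he := e2_posM hr
  obtain ⟨hG, _, _⟩ := TetDim.basic v hv
  have hP := hG.2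
  rw [hl, discM r] at hP
  have hd : 0 < 4 * e2 r * e4 r - e3 r ^ 2 := by linarith
  refine ⟨sg r - e3 r / (2 * e2 r), √(4 * e2 r * e4 r - e3 r ^ 2) / (2 * e2 r), ?_, ?_, ?_⟩
  · have := Real.sqrt_pos.mpr hd
    positivity
  · field_simp
    ring
  · have h1 := Real.sq_sqrt hd.le
    rw [div_pow, h1]
    field_simp
    ring

/-- the complex quadratic vanishes at the root -/
theorem root_CM {r : Fin 4 → ℝ} (he : 0 < e2 r) {ξ η : ℝ} (hr : Root r ξ η) :
    (e2 r : ℂ) * (((ξ : ℂ) + η * I) - sg r) ^ 2 + (e3 r : ℂ) * (((ξ : ℂ) + η * I) - sg r) +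
      (e4 r : ℂ) = 0 := by
  obtain ⟨h1, h2⟩ := hr
  have hR : e2 r * (ξ - sg r) ^ 2 - e2 r * η ^ 2 + e3 r * (ξ - sg r) + e4 r = 0 := by
    have h4 : 4 * e2 r * (e2 r * (ξ - sg r) ^ 2 - e2 r * η ^ 2 + e3 r * (ξ - sg r) + e4 r)
        = 0 := by
      linear_combination (2 * e2 r * (sg r - ξ) - e3 r) * h1 - h2
    have h5 : (4 * e2 r) ≠ 0 := by positivity
    exact (mul_eq_zero.1 h4).resolve_left h5
  have hRC : (e2 r : ℂ) * ((ξ : ℂ) - sg r) ^ 2 - e2 r * (η : ℂ) ^ 2 + e3 r * ((ξ : ℂ) - sg r) +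
      e4 r = 0 := by exact_mod_cast hR
  have h1C : 2 * (e2 r : ℂ) * ((sg r : ℂ) - ξ) = e3 r := by exact_mod_cast h1
  linear_combination hRC - (η : ℂ) * I * h1C + (e2 r : ℂ) * (η : ℂ) ^ 2 * I_sq

theorem prodCM (r : Fin 4 → ℝ) (X : ℂ) :
    (X - (sg r - r 0 : ℝ)) * (X - (sg r - r 1 : ℝ)) * (X - (sg r - r 2 : ℝ)) *
      (X - (sg r - r 3 : ℝ)) - X * (X - sg r) ^ 3 =
      (e2 r : ℂ) * (X - sg r) ^ 2 + (e3 r : ℂ) * (X - sg r) + (e4 r : ℂ) := by
  simp only [sg, e2, e3, e4]
  push_cast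
  ring

theorem nrm_of_root (v : Fin 4 → E3) (hv : AffineIndependent ℝ v) (r : Fin 4 → ℝ)
    (hl : len v = lr r) (ξ η : ℝ) (hη : 0 < η) (hr : Root r ξ η) :
    Nrm (aM r ξ η) (yM ξ η) (zM r ξ η) := by
  have hp := r_pos v hv r hl
  have he := e2_posM hp
  have p0 := hp 0
  have p1 := hp 1
  have p2 := hp 2
  have p3 := hp 3
  have mono : ∀ x y : ℝ, x < y → (x - ξ) / η < (y - ξ) / η := by
    intro x y hxy
    exact div_lt_div_of_pos_right (by linarith) hη
  refine ⟨?_, ?_, ?_, ?_⟩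
  · simp only [aM, yM, zM, sg]
    field_simp
    ring
  · have hq := prodCM r ((ξ : ℂ) + η * I)
    rw [root_CM he hr] at hq
    have hηC : (η : ℂ) ≠ 0 := by exact_mod_cast hη.ne'
    have key : ∀ g : ℝ, (((g - ξ) / η : ℝ) : ℂ) - I = -(((ξ : ℂ) + η * I) - g) / η := by
      intro g
      push_cast
      field_simp
      ring
    simp only [aM, yM, zM]
    rw [key, key, key, key, key, key]
    push_cast at hq ⊢
    field_simp
    linear_combination hq
  · intro i
    simp only [aM, yM]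
    apply mono
    fin_cases i
    · show 0 < sg r - r 0
      unfold sg
      linarith
    · show 0 < sg r - r 1
      unfold sg
      linarith
    · show 0 < sg r - r 2
      unfold sg
      linarith
    · show 0 < sg r - r 3
      unfold sg
      linarith
  · intro i
    simp only [aM, zM]
    apply mono
    have := hp i
    linarith

end Pool.Agent.TetMid83
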